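import Mathlib

/-!
# Chain sums of the Möbius function

A sum over the chains ending at the top of a finite ranked poset, with the Möbius function and the
weights `x + ... + x^(ρ-1)`, is determined by a linear system over the principal up-sets.
-/

namespace Pool.Agent.L7h4.DC

open Polynomial Finset

/-- `x + x^2 + ... + x^(d-1)` -/
noncomputable def bx (d : ℕ) : ℤ[X] := ∑ j ∈ Ico 1 d, X ^ j

lemma bx_mul (d : ℕ) (hd : 1 ≤ d) : (X - 1) * bx d = X ^ d - X := by
  have h := Finset.sum_Ico_eq_sub (fun j => (X : ℤ[X]) ^ j) hd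
  have h2 := mul_geom_sum (X : ℤ[X]) d
  unfold bx
  rw [h, mul_sub, h2]
  simp

section
variable {P : Type*} [PartialOrder P] [Fintype P] [LocallyFiniteOrder P] [DecidableEq P]

/-- the weight of a step of a chain -/
noncomputable def kap (rk : P → ℕ) (a b : P) : ℤ[X] :=
  C (IncidenceAlgebra.mu ℤ a b) * bx (rk b - rk a)

open Classical in
/-- the sum over all chains `c 0 < ... < c m = t` -/
noncomputable def chainSum (rk : P → ℕ) (w : P → ℤ[X]) (t : P) (m : ℕ) : ℤ[X] :=
  ∑ c ∈ (univ : Finset (Fin (m + 1) → P)).filter (fun c => StrictMono c ∧ c (Fin.last m) = t),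
    w (c 0) * ∏ i : Fin m, kap rk (c i.castSucc) (c i.succ)

open Classical in
/-- chain sums by the number of steps -/
noncomputable def vv (rk : P → ℕ) (t : P) : ℕ → P → ℤ[X]
  | 0, a => if a = t then 1 else 0
  | m + 1, a => ∑ b ∈ univ.filter (fun b => a < b), kap rk a b * vv rk t m b

lemma chainSum_zero (rk : P → ℕ) (w : P → ℤ[X]) (t : P) : chainSum rk w t 0 = w t := by
  classical
  unfold chainSum
  have : (univ : Finset (Fin 1 → P)).filter (fun c => StrictMono c ∧ c (Fin.last 0) = t) =
      {fun _ => t} := by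
    ext c
    simp only [mem_filter, mem_univ, true_and, mem_singleton]
    constructor
    · rintro ⟨-, h⟩
      funext i
      have : i = Fin.last 0 := by
        ext
        have := i.2
        simp at this ⊢
      rw [this, h]
    · rintro rfl
      refine ⟨?_, rfl⟩
      intro i j hij
      have h1 := i.2
      have h2 := j.2
      rw [Fin.lt_def] at hij
      omega
  rw [Finset.sum_congr this (fun _ _ => rfl), Finset.sum_singleton]
  simp

open Classical in
lemma chainSum_succ (rk : P → ℕ) (w : P → ℤ[X]) (t : P) (m : ℕ) :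
    chainSum rk w t (m + 1) =
      chainSum rk (fun b => ∑ a ∈ univ.filter (fun a => a < b), w a * kap rk a b) t m := by
  unfold chainSum
  simp only [Finset.sum_filter]
  rw [← (Fin.consEquiv (fun _ : Fin (m + 2) => P)).sum_comp]
  rw [Fintype.sum_prod_type, Finset.sum_comm]
  refine Finset.sum_congr rfl fun c _ => ?_
  have hc : ∀ a : P, StrictMono (Fin.cons a c : Fin (m + 2) → P) ↔ a < c 0 ∧ StrictMono c := by
    intro a
    exact strictMono_vecCons
  have hl : ∀ a : P, (Fin.cons a c : Fin (m + 2) → P) (Fin.last (m + 1)) = c (Fin.last m) := by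
    intro a
    rw [← Fin.succ_last, Fin.cons_succ]
  by_cases h : StrictMono c ∧ c (Fin.last m) = t
  · rw [if_pos h, Finset.sum_mul]
    refine Finset.sum_congr rfl fun a _ => ?_
    by_cases ha : a < c 0
    · have h1 : StrictMono (Fin.cons a c : Fin (m + 2) → P) ∧
          (Fin.cons a c : Fin (m + 2) → P) (Fin.last (m + 1)) = t :=
        ⟨(hc a).2 ⟨ha, h.1⟩, (hl a).trans h.2⟩
      rw [if_pos ha]
      refine (if_pos h1).trans ?_
      change w ((Fin.cons a c : Fin (m + 2) → P) 0) * ∏ i : Fin (m + 1),
        kap rk ((Fin.cons a c : Fin (m + 2) → P) i.castSucc)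
          ((Fin.cons a c : Fin (m + 2) → P) i.succ) = _
      rw [Fin.prod_univ_succ]
      simp only [Fin.castSucc_zero, Fin.cons_zero, Fin.cons_succ, ← Fin.succ_castSucc]
      ring
    · rw [if_neg ha, zero_mul]
      refine if_neg ?_
      rintro ⟨h1, -⟩
      exact ha ((hc a).1 h1).1
  · rw [if_neg h]
    refine Finset.sum_eq_zero fun a _ => ?_
    refine if_neg ?_
    rintro ⟨h1, h2⟩
    exact h ⟨((hc a).1 h1).2, (hl a).symm.trans h2⟩

lemma chainSum_eq (rk : P → ℕ) (t : P) (m : ℕ) : ∀ w : P → ℤ[X],
    chainSum rk w t m = ∑ a, w a * vv rk t m a := by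
  classical
  induction m with
  | zero =>
    intro w
    rw [chainSum_zero]
    simp [vv]
  | succ m ih =>
    intro w
    rw [chainSum_succ, ih]
    simp only [vv, Finset.sum_filter, Finset.sum_mul, Finset.mul_sum]
    rw [Finset.sum_comm]
    refine Finset.sum_congr rfl fun a _ => Finset.sum_congr rfl fun b _ => ?_
    split_ifs <;> ring

lemma vv_zero_of_card (rk : P → ℕ) (t : P) (m : ℕ) (hm : Fintype.card P ≤ m) (a : P) :
    vv rk t m a = 0 := by
  classical
  have h := chainSum_eq rk t m (fun b => if b = a then 1 else 0)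
  have h2 : chainSum rk (fun b => if b = a then (1 : ℤ[X]) else 0) t m = 0 := by
    unfold chainSum
    have : (univ : Finset (Fin (m + 1) → P)).filter
        (fun c => StrictMono c ∧ c (Fin.last m) = t) = ∅ := by
      rw [Finset.filter_eq_empty_iff]
      rintro c - ⟨hc, -⟩
      have := Fintype.card_le_of_injective c hc.injective
      simp at this
      omega
    rw [Finset.sum_congr this (fun _ _ => rfl), Finset.sum_empty]
  rw [h2] at h
  simp only [ite_mul, one_mul, zero_mul, Finset.sum_ite_eq', mem_univ, if_true] at h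
  exact h.symm

/-- the sum of all the chain sums -/
lemma total (rk : P → ℕ) (w : P → ℤ[X]) (t : P) :
    ∑ m ∈ range (Fintype.card P), chainSum rk w t m =
      ∑ a, w a * ∑ m ∈ range (Fintype.card P), vv rk t m a := by
  simp only [chainSum_eq, Finset.mul_sum]
  rw [Finset.sum_comm]

open Classical in
lemma gg_rec (rk : P → ℕ) (t : P) (a : P) :
    ∑ m ∈ range (Fintype.card P), vv rk t m a = (if a = t then 1 else 0) +
      ∑ b ∈ univ.filter (fun b => a < b),
        kap rk a b * ∑ m ∈ range (Fintype.card P), vv rk t m b := by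
  have h1 : ∑ m ∈ range (Fintype.card P + 1), vv rk t m a =
      ∑ m ∈ range (Fintype.card P), vv rk t m a := by
    rw [Finset.sum_range_succ, vv_zero_of_card rk t _ le_rfl, add_zero]
  rw [← h1, Finset.sum_range_succ']
  rw [add_comm]
  congr 1
  simp only [vv]
  rw [Finset.sum_comm]
  simp only [Finset.mul_sum]

omit [LocallyFiniteOrder P] in
open Classical in
/-- the solution of the recursion is unique -/
lemma gg_unique (t : P) (g g' : P → ℤ[X]) (K : P → P → ℤ[X])
    (h : ∀ a, g a = (if a = t then 1 else 0) + ∑ b ∈ univ.filter (fun b => a < b), K a b * g b)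
    (h' : ∀ a, g' a = (if a = t then 1 else 0) +
      ∑ b ∈ univ.filter (fun b => a < b), K a b * g' b) : g = g' := by
  funext a
  induction a using (Finite.wellFounded_of_trans_of_irrefl (fun a b : P => b < a)).induction with
  | _ a ih =>
    rw [h a, h' a]
    congr 1
    refine Finset.sum_congr rfl fun b hb => ?_
    rw [ih b (mem_filter.1 hb).2]

/-- the main identity: chain sums from a linear system over the up-sets -/
theorem chain_formula (rk : P → ℕ) (hrk : StrictMono rk) (b t : P) (hb : ∀ x, b ≤ x)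
    (ht : ∀ x, x ≤ t) (h : P → ℤ[X])
    (hh : ∀ a, (∑ z ∈ Icc a t, (∑ j ∈ range (rk z - rk a + 1), X ^ j) * h z) =
      X ^ (rk t - rk a)) :
    ∑ m ∈ range (Fintype.card P), chainSum rk (fun a => C (IncidenceAlgebra.mu ℤ b a)) t m =
      h b := by
  classical
  have hmono : Monotone rk := hrk.monotone
  set g' : P → ℤ[X] := fun a => ∑ z ∈ Icc a t, h z with hg'
  have hX1 : (X - 1 : ℤ[X]) ≠ 0 := by
    intro h0
    have := congrArg (fun p : ℤ[X] => p.eval 2) h0
    simp at this
  -- (1)
  have e1 : ∀ a, ∑ z ∈ Icc a t, C (IncidenceAlgebra.mu ℤ a z) * g' z = h a := by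
    intro a
    have : ∀ z ∈ Icc a t, C (IncidenceAlgebra.mu ℤ a z) * g' z =
        ∑ y ∈ Icc a t, if z ≤ y then C (IncidenceAlgebra.mu ℤ a z) * h y else 0 := by
      intro z hz
      rw [hg', Finset.mul_sum, ← Finset.sum_filter]
      refine Finset.sum_congr ?_ fun _ _ => rfl
      ext y
      simp only [mem_Icc, mem_filter]
      constructor
      · rintro ⟨h1, h2⟩
        exact ⟨⟨(mem_Icc.1 hz).1.trans h1, h2⟩, h1⟩
      · rintro ⟨⟨h1, h2⟩, h3⟩
        exact ⟨h3, h2⟩
    rw [Finset.sum_congr rfl this, Finset.sum_comm]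
    have : ∀ y ∈ Icc a t, (∑ z ∈ Icc a t, if z ≤ y then C (IncidenceAlgebra.mu ℤ a z) * h y else 0) =
        if y = a then h a else 0 := by
      intro y hy
      rw [← Finset.sum_filter, ← Finset.sum_mul]
      have hf : (Icc a t).filter (fun z => z ≤ y) = Icc a y := by
        ext z
        simp only [mem_Icc, mem_filter]
        constructor
        · rintro ⟨⟨h1, -⟩, h3⟩
          exact ⟨h1, h3⟩
        · rintro ⟨h1, h3⟩
          exact ⟨⟨h1, ht z⟩, h3⟩
      rw [hf, ← map_sum, IncidenceAlgebra.sum_Icc_mu_right]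
      by_cases hya : a = y
      · subst hya
        simp
      · rw [if_neg hya, if_neg (fun h => hya h.symm)]
        simp
    rw [Finset.sum_congr rfl this, Finset.sum_ite_eq' (Icc a t) a]
    simp [ht a]
  -- (2)
  have e2 : ∀ a, g' a = X * (∑ z ∈ Icc a t, X ^ (rk z - rk a) * h z) -
      (X - 1) * X ^ (rk t - rk a) := by
    intro a
    have h1 : (X - 1 : ℤ[X]) * (∑ z ∈ Icc a t, (∑ j ∈ range (rk z - rk a + 1), X ^ j) * h z) =
        (X - 1) * X ^ (rk t - rk a) := by rw [hh a]
    rw [Finset.mul_sum] at h1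
    have : ∀ z ∈ Icc a t, (X - 1 : ℤ[X]) * ((∑ j ∈ range (rk z - rk a + 1), X ^ j) * h z) =
        X * (X ^ (rk z - rk a) * h z) - h z := by
      intro z _
      rw [← mul_assoc, mul_geom_sum, pow_succ]
      ring
    rw [Finset.sum_congr rfl this, Finset.sum_sub_distrib, ← Finset.mul_sum] at h1
    rw [← h1]
    simp [hg']
  have e3 : ∀ a, ∑ z ∈ Icc a t, C (IncidenceAlgebra.mu ℤ a z) * X ^ (rk z - rk a) * g' z =
      X * h a - (X - 1) * (if a = t then 1 else 0) := by
    intro a
    have key : ∀ (f : P → ℤ[X]), (∑ z ∈ Icc a t, C (IncidenceAlgebra.mu ℤ a z) *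
        X ^ (rk z - rk a) * (∑ y ∈ Icc z t, X ^ (rk y - rk z) * f y)) = f a := by
      intro f
      have : ∀ z ∈ Icc a t, C (IncidenceAlgebra.mu ℤ a z) *
        X ^ (rk z - rk a) * (∑ y ∈ Icc z t, X ^ (rk y - rk z) * f y) =
          ∑ y ∈ Icc a t, if z ≤ y then C (IncidenceAlgebra.mu ℤ a z) *
            (X ^ (rk y - rk a) * f y) else 0 := by
        intro z hz
        rw [Finset.mul_sum, ← Finset.sum_filter]
        refine Finset.sum_congr ?_ ?_
        · ext y
          simp only [mem_Icc, mem_filter]
          constructor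
          · rintro ⟨h1, h2⟩
            exact ⟨⟨(mem_Icc.1 hz).1.trans h1, h2⟩, h1⟩
          · rintro ⟨⟨h1, h2⟩, h3⟩
            exact ⟨h3, h2⟩
        · intro y hy
          have h1 := hmono (mem_Icc.1 hz).1
          have h2 := hmono (mem_filter.1 hy).2
          have h3 : rk y - rk a = (rk z - rk a) + (rk y - rk z) := by omega
          rw [h3, pow_add]
          ring
      rw [Finset.sum_congr rfl this, Finset.sum_comm]
      have : ∀ y ∈ Icc a t, (∑ z ∈ Icc a t, if z ≤ y then C (IncidenceAlgebra.mu ℤ a z) *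
            (X ^ (rk y - rk a) * f y) else 0) = if y = a then f a else 0 := by
        intro y hy
        rw [← Finset.sum_filter, ← Finset.sum_mul]
        have hf : (Icc a t).filter (fun z => z ≤ y) = Icc a y := by
          ext z
          simp only [mem_Icc, mem_filter]
          constructor
          · rintro ⟨⟨h1, -⟩, h3⟩
            exact ⟨h1, h3⟩
          · rintro ⟨h1, h3⟩
            exact ⟨⟨h1, ht z⟩, h3⟩
        rw [hf, ← map_sum, IncidenceAlgebra.sum_Icc_mu_right]
        by_cases hya : a = y
        · subst hya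
          simp
        · rw [if_neg hya, if_neg (fun h => hya h.symm)]
          simp
      rw [Finset.sum_congr rfl this, Finset.sum_ite_eq' (Icc a t) a]
      simp [ht a]
    have s1 := key h
    have s2 := key (fun y => if y = t then 1 else 0)
    have s3 : ∀ z ∈ Icc a t, (∑ y ∈ Icc z t, X ^ (rk y - rk z) * (if y = t then (1 : ℤ[X]) else 0)) =
        X ^ (rk t - rk z) := by
      intro z _
      simp only [mul_ite, mul_one, mul_zero]
      rw [Finset.sum_ite_eq' (Icc z t) t]
      simp [ht z]
    rw [Finset.sum_congr rfl fun z hz => by rw [s3 z hz]] at s2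
    have s4 : ∀ z ∈ Icc a t, C (IncidenceAlgebra.mu ℤ a z) * X ^ (rk z - rk a) * g' z =
        X * (C (IncidenceAlgebra.mu ℤ a z) *
        X ^ (rk z - rk a) * (∑ y ∈ Icc z t, X ^ (rk y - rk z) * h y)) -
        (X - 1) * (C (IncidenceAlgebra.mu ℤ a z) * X ^ (rk z - rk a) * X ^ (rk t - rk z)) := by
      intro z _
      rw [e2 z]
      ring
    rw [Finset.sum_congr rfl s4, Finset.sum_sub_distrib, ← Finset.mul_sum, ← Finset.mul_sum, s1, s2]
  -- the recursion for g'
  have e4 : ∀ a, g' a = (if a = t then 1 else 0) +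
      ∑ y ∈ univ.filter (fun y => a < y), kap rk a y * g' y := by
    intro a
    apply mul_left_cancel₀ hX1
    have hI : univ.filter (fun y => a < y) = (Icc a t).erase a := by
      ext y
      simp only [mem_filter, mem_univ, true_and, mem_erase, mem_Icc]
      constructor
      · intro h
        exact ⟨h.ne', h.le, ht y⟩
      · rintro ⟨h1, h2, -⟩
        exact lt_of_le_of_ne h2 (Ne.symm h1)
    have h5 : ∀ y ∈ univ.filter (fun y => a < y), (X - 1 : ℤ[X]) * (kap rk a y * g' y) =
        C (IncidenceAlgebra.mu ℤ a y) * X ^ (rk y - rk a) * g' y -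
          X * (C (IncidenceAlgebra.mu ℤ a y) * g' y) := by
      intro y hy
      have h1 : 1 ≤ rk y - rk a := by
        have := hrk (mem_filter.1 hy).2
        omega
      have h2 := bx_mul _ h1
      unfold kap
      calc (X - 1 : ℤ[X]) * (C (IncidenceAlgebra.mu ℤ a y) * bx (rk y - rk a) * g' y)
          = C (IncidenceAlgebra.mu ℤ a y) * ((X - 1) * bx (rk y - rk a)) * g' y := by ring
        _ = _ := by rw [h2]; ring
    rw [mul_add, Finset.mul_sum (univ.filter fun y => a < y) (fun y => kap rk a y * g' y),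
      Finset.sum_congr rfl h5, Finset.sum_sub_distrib, ← Finset.mul_sum, hI]
    have h6 := Finset.add_sum_erase (Icc a t)
      (fun y => C (IncidenceAlgebra.mu ℤ a y) * X ^ (rk y - rk a) * g' y)
      (left_mem_Icc.2 (ht a))
    have h7 := Finset.add_sum_erase (Icc a t)
      (fun y => C (IncidenceAlgebra.mu ℤ a y) * g' y) (left_mem_Icc.2 (ht a))
    rw [e3] at h6
    rw [e1] at h7
    simp only [IncidenceAlgebra.mu_self, tsub_self, pow_zero, mul_one, map_one, one_mul] at h6 h7
    linear_combination (-1 : ℤ[X]) * h6 + X * h7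
  have e5 : (fun a => ∑ m ∈ range (Fintype.card P), vv rk t m a) = g' :=
    gg_unique t _ g' (kap rk) (fun a => gg_rec rk t a) e4
  rw [total]
  have e6 : ∀ a, ∑ m ∈ range (Fintype.card P), vv rk t m a = g' a := fun a => congrFun e5 a
  simp only [e6]
  have hu : (univ : Finset P) = Icc b t := by
    ext y
    simp [hb y, ht y]
  rw [hu]
  exact e1 b

end

end Pool.Agent.L7h4.DC
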