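import Mathlib

/-!
# Classes of graphs of linear maps

`F ⊂ L` fields, `θ` four elements of `L` that are linearly independent over `F`. The class of the
graph of `A : F^4 → L` is `∑ θ i * A (e i)`. A graph over a hyperplane of `F^4` has a unique
extension to a graph over `F^4` with a given class.
-/

namespace Pool.Agent.L7h4.DC

open Module Submodule

variable {F L : Type*} [Field F] [Field L] [Algebra F L]

/-- the vertical subspace -/
def WW (F L : Type*) [Field F] [Field L] [Algebra F L] : Submodule F ((Fin 4 → F) × L) :=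
  LinearMap.ker (LinearMap.fst F (Fin 4 → F) L)

lemma mem_WW (p : (Fin 4 → F) × L) : p ∈ WW F L ↔ p.1 = 0 := by
  unfold WW
  rw [LinearMap.mem_ker]
  rfl

/-- the class of a linear map -/
noncomputable def cl0 (θ : Fin 4 → L) (A : (Fin 4 → F) →ₗ[F] L) : L :=
  ∑ i, θ i * A (Pi.single i 1)

open Classical in
/-- the class of a graph -/
noncomputable def cls (F : Type*) {L : Type*} [Field F] [Field L] [Algebra F L] (θ : Fin 4 → L)
    (Γ : Submodule F ((Fin 4 → F) × L)) : L :=
  if h : ∃ A : (Fin 4 → F) →ₗ[F] L, A.graph = Γ then cl0 θ h.choose else 0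

lemma graph_inj {A B : (Fin 4 → F) →ₗ[F] L} (h : A.graph = B.graph) : A = B := by
  ext1 x
  ext1
  have : ∀ v, A v = B v := by
    intro v
    have h1 : (v, A v) ∈ A.graph := by rw [LinearMap.mem_graph_iff]
    rw [h, LinearMap.mem_graph_iff] at h1
    exact h1
  simp [this]

lemma cls_graph (θ : Fin 4 → L) (A : (Fin 4 → F) →ₗ[F] L) : cls F θ A.graph = cl0 θ A := by
  have h : ∃ B : (Fin 4 → F) →ₗ[F] L, B.graph = A.graph := ⟨A, rfl⟩
  unfold cls
  rw [dif_pos h, graph_inj h.choose_spec]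

lemma graph_tr (A : (Fin 4 → F) →ₗ[F] L) : A.graph ⊓ WW F L = ⊥ := by
  rw [eq_bot_iff]
  rintro ⟨x, y⟩ ⟨h1, h2⟩
  rw [SetLike.mem_coe, LinearMap.mem_graph_iff] at h1
  rw [SetLike.mem_coe, mem_WW] at h2
  simp only at h1 h2
  subst h2
  rw [map_zero] at h1
  subst h1
  simp

lemma graph_finrank (A : (Fin 4 → F) →ₗ[F] L) : finrank F A.graph = 4 := by
  rw [LinearMap.graph_eq_range_prod, LinearMap.finrank_range_of_inj]
  · simp
  · intro x y h
    exact congrArg Prod.fst h

/-- a transversal subspace is contained in the graph of a linear map -/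
lemma exists_graph_ge (Γ : Submodule F ((Fin 4 → F) × L)) (h : Γ ⊓ WW F L = ⊥) :
    ∃ A : (Fin 4 → F) →ₗ[F] L, Γ ≤ A.graph := by
  set p : Γ →ₗ[F] (Fin 4 → F) := (LinearMap.fst F (Fin 4 → F) L).comp Γ.subtype with hp
  have hinj : Function.Injective p := by
    rw [← LinearMap.ker_eq_bot, LinearMap.ker_eq_bot']
    intro m hm
    have h1 : (m : (Fin 4 → F) × L) ∈ Γ ⊓ WW F L := ⟨m.2, by
      rw [SetLike.mem_coe, mem_WW]; exact hm⟩
    rw [h] at h1
    exact Subtype.ext ((Submodule.mem_bot F).1 h1)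
  let e := LinearEquiv.ofInjective p hinj
  obtain ⟨A, hA⟩ := LinearMap.exists_extend
    (((LinearMap.snd F (Fin 4 → F) L).comp Γ.subtype).comp e.symm.toLinearMap)
  refine ⟨A, ?_⟩
  intro v hv
  rw [LinearMap.mem_graph_iff]
  have h1 := LinearMap.congr_fun hA (e ⟨v, hv⟩)
  simp only [LinearMap.comp_apply, Submodule.subtype_apply, LinearEquiv.coe_coe,
    LinearEquiv.symm_apply_apply] at h1
  have h2 : ((e ⟨v, hv⟩ : LinearMap.range p) : Fin 4 → F) = v.1 := rfl
  rw [h2] at h1
  exact h1.symm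

lemma tr4 [FiniteDimensional F L] (Γ : Submodule F ((Fin 4 → F) × L)) (h : Γ ⊓ WW F L = ⊥)
    (h4 : finrank F Γ = 4) : ∃ A : (Fin 4 → F) →ₗ[F] L, A.graph = Γ := by
  obtain ⟨A, hA⟩ := exists_graph_ge Γ h
  exact ⟨A, (Submodule.eq_of_le_of_finrank_le hA (by rw [graph_finrank, h4])).symm⟩

lemma cl0_add (θ : Fin 4 → L) (A B : (Fin 4 → F) →ₗ[F] L) :
    cl0 θ (A + B) = cl0 θ A + cl0 θ B := by
  simp [cl0, mul_add, Finset.sum_add_distrib]

lemma cl0_smulRight (θ : Fin 4 → L) (l : (Fin 4 → F) →ₗ[F] F) (y : L) :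
    cl0 θ (l.smulRight y) = (∑ i, l (Pi.single i 1) • θ i) * y := by
  unfold cl0
  rw [Finset.sum_mul]
  refine Finset.sum_congr rfl fun i _ => ?_
  rw [LinearMap.smulRight_apply, Algebra.smul_def, Algebra.smul_def]
  ring

lemma theta_ne (θ : Fin 4 → L) (hθ : LinearIndependent F θ) (l : (Fin 4 → F) →ₗ[F] F)
    (hl : l ≠ 0) : (∑ i, l (Pi.single i 1) • θ i) ≠ 0 := by
  intro h
  have h1 := Fintype.linearIndependent_iff.1 hθ _ h
  apply hl
  ext i
  simpa using h1 i

/-- graphs over a hyperplane extend uniquely to graphs of a given class -/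
theorem ext_unique [FiniteDimensional F L] (θ : Fin 4 → L) (hθ : LinearIndependent F θ)
    (Γ : Submodule F ((Fin 4 → F) × L)) (h : Γ ⊓ WW F L = ⊥) (h3 : finrank F Γ = 3) (e : L) :
    ∃! G : Submodule F ((Fin 4 → F) × L),
      Γ ≤ G ∧ G ⊓ WW F L = ⊥ ∧ finrank F G = 4 ∧ cls F θ G = e := by
  obtain ⟨A, hA⟩ := exists_graph_ge Γ h
  set p : Γ →ₗ[F] (Fin 4 → F) := (LinearMap.fst F (Fin 4 → F) L).comp Γ.subtype with hp
  have hinj : Function.Injective p := by
    rw [← LinearMap.ker_eq_bot, LinearMap.ker_eq_bot']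
    intro m hm
    have h1 : (m : (Fin 4 → F) × L) ∈ Γ ⊓ WW F L := ⟨m.2, by
      rw [SetLike.mem_coe, mem_WW]; exact hm⟩
    rw [h] at h1
    exact Subtype.ext ((Submodule.mem_bot F).1 h1)
  have hr3 : finrank F (LinearMap.range p) = 3 := by
    rw [LinearMap.finrank_range_of_inj hinj, h3]
  have hlt : LinearMap.range p < ⊤ := by
    rw [lt_top_iff_ne_top]
    intro h0
    rw [h0, finrank_top] at hr3
    simp at hr3
  obtain ⟨l, hl0, hl⟩ := Submodule.exists_le_ker_of_lt_top _ hlt
  have ht := theta_ne θ hθ l hl0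
  set t := ∑ i, l (Pi.single i 1) • θ i with ht'
  have hker : LinearMap.range p = LinearMap.ker l := by
    refine Submodule.eq_of_le_of_finrank_le hl ?_
    have h1 := LinearMap.finrank_range_add_finrank_ker l
    have h2 : LinearMap.range l = ⊤ := LinearMap.range_eq_top.2 (LinearMap.surjective hl0)
    rw [h2, finrank_top] at h1
    simp at h1
    omega
  refine ⟨(A + l.smulRight ((e - cl0 θ A) / t)).graph, ⟨?_, graph_tr _, graph_finrank _, ?_⟩, ?_⟩
  · intro v hv
    have h1 := hA hv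
    rw [LinearMap.mem_graph_iff] at h1 ⊢
    have h2 : l v.1 = 0 := by
      have : v.1 ∈ LinearMap.range p := ⟨⟨v, hv⟩, rfl⟩
      exact LinearMap.mem_ker.1 (hl this)
    simp [h1, h2]
  · rw [cls_graph, cl0_add, cl0_smulRight, mul_div_cancel₀ _ ht]
    ring
  · rintro G ⟨h1, h2, h4, h5⟩
    obtain ⟨B, rfl⟩ := tr4 G h2 h4
    rw [cls_graph] at h5
    congr 1
    obtain ⟨x1, hx1⟩ : ∃ x1, l x1 ≠ 0 := by
      by_contra hcon
      push Not at hcon
      exact hl0 (LinearMap.ext hcon)
    -- B - A vanishes on the kernel of l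
    have hz : ∀ x, l x = 0 → B x = A x := by
      intro x hx
      have hx2 : x ∈ LinearMap.range p := by
        rw [hker]
        exact LinearMap.mem_ker.2 hx
      obtain ⟨v, rfl⟩ := hx2
      have e1 := h1 v.2
      have e2 := hA v.2
      rw [LinearMap.mem_graph_iff] at e1 e2
      exact e1.symm.trans e2
    have hD : B = A + l.smulRight ((l x1)⁻¹ • (B x1 - A x1)) := by
      refine LinearMap.ext fun x => ?_
      have h6 : l (x - (l x / l x1) • x1) = 0 := by
        rw [map_sub, map_smul, smul_eq_mul, div_mul_cancel₀ _ hx1, sub_self]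
      have h7 := hz _ h6
      rw [map_sub, map_sub, map_smul, map_smul] at h7
      rw [LinearMap.add_apply, LinearMap.smulRight_apply, smul_smul, smul_sub,
        ← div_eq_mul_inv]
      linear_combination (exp := 1) h7
    rw [hD, cl0_add, cl0_smulRight] at h5
    rw [hD]
    congr 2
    rw [eq_div_iff ht, ← h5]
    ring

end Pool.Agent.L7h4.DC
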