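import Mathlib

/-!
# Counting the subspaces above `Γ` that meet `P` in `Γ`
-/

namespace Pool.Agent.L7h4.DC

open Module Submodule

variable {F V : Type*} [Field F] [Fintype F] [AddCommGroup V] [Module F V] [Finite V]

omit [Fintype F] [Finite V] in
lemma li_mkQ_iff {d : ℕ} (Q : Submodule F V) (s : Fin d → V) :
    LinearIndependent F (Q.mkQ ∘ s) ↔ ∀ c : Fin d → F, ∑ i, c i • s i ∈ Q → ∀ i, c i = 0 := by
  rw [Fintype.linearIndependent_iff]
  refine forall_congr' fun c => ?_
  have : ∑ i, c i • (Q.mkQ ∘ s) i = Q.mkQ (∑ i, c i • s i) := by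
    simp [map_sum]
  rw [this, mkQ_apply, Submodule.Quotient.mk_eq_zero]

/-- splitting a vector into its class and a remainder -/
noncomputable def splitEquiv (Q : Submodule F V) : V ≃ (V ⧸ Q) × Q where
  toFun v := (Q.mkQ v, ⟨v - Function.surjInv Q.mkQ_surjective (Q.mkQ v), by
    rw [← Submodule.Quotient.mk_eq_zero, Submodule.Quotient.mk_sub, sub_eq_zero]
    exact (Function.surjInv_eq Q.mkQ_surjective (Q.mkQ v)).symm⟩)
  invFun p := Function.surjInv Q.mkQ_surjective p.1 + p.2
  left_inv v := by simp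
  right_inv p := by
    have h : Q.mkQ (Function.surjInv Q.mkQ_surjective p.1 + p.2) = p.1 := by
      rw [map_add, Function.surjInv_eq Q.mkQ_surjective]
      simp
    refine Prod.ext h ?_
    apply Subtype.ext
    simp only
    rw [h]
    simp

omit [Fintype F] [Finite V] in
lemma splitEquiv_fst (Q : Submodule F V) (v : V) : (splitEquiv Q v).1 = Q.mkQ v := rfl

/-- lifting tuples that are independent modulo `Q` -/
noncomputable def liftEquiv (Q : Submodule F V) (d : ℕ) :
    {s : Fin d → V // LinearIndependent F (Q.mkQ ∘ s)} ≃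
      {s : Fin d → V ⧸ Q // LinearIndependent F s} × (Fin d → Q) where
  toFun s := (⟨Q.mkQ ∘ s.1, s.2⟩, fun i => (splitEquiv Q (s.1 i)).2)
  invFun p := ⟨fun i => (splitEquiv Q).symm (p.1.1 i, p.2 i), by
    have : (Q.mkQ ∘ fun i => (splitEquiv Q).symm (p.1.1 i, p.2 i)) = p.1.1 := by
      funext i
      have h := (splitEquiv Q).apply_symm_apply (p.1.1 i, p.2 i)
      exact congrArg Prod.fst h
    rw [this]
    exact p.1.2⟩
  left_inv s := by
    apply Subtype.ext
    funext i
    exact (splitEquiv Q).symm_apply_apply (s.1 i)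
  right_inv p := by
    have h : ∀ i, splitEquiv Q ((splitEquiv Q).symm (p.1.1 i, p.2 i)) = (p.1.1 i, p.2 i) :=
      fun i => (splitEquiv Q).apply_symm_apply (p.1.1 i, p.2 i)
    refine Prod.ext ?_ ?_
    · apply Subtype.ext
      funext i
      exact congrArg Prod.fst (h i)
    · funext i
      exact congrArg Prod.snd (h i)

/-- `∏ (q^n - q^i)` -/
def pr (q n d : ℕ) : ℕ := ∏ i : Fin d, (q ^ n - q ^ i.val)

lemma card_lift (Q : Submodule F V) (d : ℕ) (hd : finrank F Q + d ≤ finrank F V) :
    Nat.card {s : Fin d → V // LinearIndependent F (Q.mkQ ∘ s)} =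
      pr (Fintype.card F) (finrank F V - finrank F Q) d *
        (Fintype.card F ^ finrank F Q) ^ d := by
  have : Finite (V ⧸ Q) := Finite.of_surjective _ Q.mkQ_surjective
  have hq : finrank F (V ⧸ Q) = finrank F V - finrank F Q := by
    have := Submodule.finrank_quotient_add_finrank Q
    omega
  have h1 : Nat.card Q = Fintype.card F ^ finrank F Q := by
    have := Fintype.ofFinite Q
    rw [Nat.card_eq_fintype_card]
    exact Module.card_eq_pow_finrank
  rw [Nat.card_congr (liftEquiv Q d), Nat.card_prod, card_linearIndependent (by omega), hq,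
    Nat.card_fun, h1]
  simp [pr]

omit [Fintype F] [Finite V] in
lemma disj_of_li {d : ℕ} (Q : Submodule F V) (s : Fin d → V)
    (h : LinearIndependent F (Q.mkQ ∘ s)) : Disjoint Q (span F (Set.range s)) := by
  rw [li_mkQ_iff] at h
  rw [Submodule.disjoint_def]
  intro x hx hs
  rw [Submodule.mem_span_range_iff_exists_fun] at hs
  obtain ⟨c, rfl⟩ := hs
  have := h c hx
  simp [this]

omit [Fintype F] in
lemma finrank_sup_span {d : ℕ} (Q : Submodule F V) (s : Fin d → V)
    (h : LinearIndependent F (Q.mkQ ∘ s)) :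
    finrank F (Q ⊔ span F (Set.range s) : Submodule F V) = finrank F Q + d := by
  have h1 := Submodule.finrank_sup_add_finrank_inf_eq Q (span F (Set.range s))
  rw [(disj_of_li Q s h).eq_bot, finrank_bot, add_zero,
    finrank_span_eq_card (LinearIndependent.of_comp _ h), Fintype.card_fin] at h1
  exact h1

/-- the subspaces above `Γ` that meet `P` in `Γ` -/
abbrev Tgt (Γ P : Submodule F V) (d : ℕ) : Type _ :=
  {G : Submodule F V // Γ ≤ G ∧ G ⊓ P = Γ ∧ finrank F G = finrank F Γ + d}

omit [Fintype F] [Finite V] in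
lemma li_mono {d : ℕ} {Γ P : Submodule F V} (hle : Γ ≤ P) {s : Fin d → V}
    (h : LinearIndependent F (P.mkQ ∘ s)) : LinearIndependent F (Γ.mkQ ∘ s) := by
  rw [li_mkQ_iff] at h ⊢
  exact fun c hc => h c (hle hc)

/-- the span of a tuple -/
noncomputable def toTgt (Γ P : Submodule F V) (hle : Γ ≤ P) (d : ℕ)
    (s : {s : Fin d → V // LinearIndependent F (P.mkQ ∘ s)}) : Tgt Γ P d :=
  ⟨Γ ⊔ span F (Set.range s.1), le_sup_left, by
    have h1 := disj_of_li P s.1 s.2
    rw [sup_inf_assoc_of_le _ hle, inf_comm, h1.eq_bot, sup_bot_eq],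
    finrank_sup_span Γ s.1 (li_mono hle s.2)⟩

/-- the fibre of `toTgt` -/
noncomputable def fibEquiv (Γ P : Submodule F V) (hle : Γ ≤ P) (d : ℕ) (G : Tgt Γ P d) :
    {s : {s : Fin d → V // LinearIndependent F (P.mkQ ∘ s)} // toTgt Γ P hle d s = G} ≃
      {s : Fin d → G.1 // LinearIndependent F ((Γ.comap G.1.subtype).mkQ ∘ s)} where
  toFun s := ⟨fun i => ⟨s.1.1 i, by
      have h : (toTgt Γ P hle d s.1).1 = G.1 := congrArg Subtype.val s.2
      rw [← h]
      exact Submodule.mem_sup_right (Submodule.subset_span ⟨i, rfl⟩)⟩, by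
    have h := (li_mkQ_iff _ _).1 s.1.2
    rw [li_mkQ_iff]
    intro c hc
    refine h c (hle ?_)
    rw [Submodule.mem_comap] at hc
    simpa using hc⟩
  invFun s := ⟨⟨fun i => (s.1 i : V), by
    have h := (li_mkQ_iff _ _).1 s.2
    rw [li_mkQ_iff]
    intro c hc
    refine h c ?_
    rw [Submodule.mem_comap]
    have hm : (∑ i, c i • (s.1 i : V)) ∈ G.1 :=
      Submodule.sum_mem _ fun i _ => Submodule.smul_mem _ _ (s.1 i).2
    have h2 : (∑ i, c i • (s.1 i : V)) ∈ G.1 ⊓ P := ⟨hm, hc⟩
    rw [G.2.2.1] at h2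
    simpa using h2⟩, by
    apply Subtype.ext
    have hle2 : Γ ⊔ span F (Set.range fun i => (s.1 i : V)) ≤ G.1 := by
      refine sup_le G.2.1 ?_
      rw [Submodule.span_le]
      rintro _ ⟨i, rfl⟩
      exact (s.1 i).2
    refine Submodule.eq_of_le_of_finrank_le hle2 ?_
    have hli : LinearIndependent F (Γ.mkQ ∘ fun i => (s.1 i : V)) := by
      have h := (li_mkQ_iff _ _).1 s.2
      rw [li_mkQ_iff]
      intro c hc
      refine h c ?_
      rw [Submodule.mem_comap]
      simpa using hc
    exact le_of_eq (G.2.2.2.trans (finrank_sup_span Γ _ hli).symm)⟩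
  left_inv s := rfl
  right_inv s := rfl

/-- the number of subspaces above `Γ` that meet `P` in `Γ` -/
theorem card_tgt (Γ P : Submodule F V) (hle : Γ ≤ P) (d : ℕ)
    (hd : finrank F P + d ≤ finrank F V) :
    Nat.card (Tgt Γ P d) * (pr (Fintype.card F) d d * (Fintype.card F ^ finrank F Γ) ^ d) =
      pr (Fintype.card F) (finrank F V - finrank F P) d * (Fintype.card F ^ finrank F P) ^ d := by
  classical
  have := Fintype.ofFinite (Tgt Γ P d)
  rw [← card_lift P d hd]
  rw [Nat.card_congr (Equiv.sigmaFiberEquiv (toTgt Γ P hle d)).symm, Nat.card_sigma]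
  have : ∀ G : Tgt Γ P d, Nat.card {s : {s : Fin d → V // LinearIndependent F (P.mkQ ∘ s)} //
      toTgt Γ P hle d s = G} =
        pr (Fintype.card F) d d * (Fintype.card F ^ finrank F Γ) ^ d := by
    intro G
    have hc : finrank F (Γ.comap G.1.subtype) = finrank F Γ :=
      (Submodule.comapSubtypeEquivOfLe G.2.1).finrank_eq
    rw [Nat.card_congr (fibEquiv Γ P hle d G), card_lift _ _ (by rw [hc, G.2.2.2]), hc, G.2.2.2]
    congr 2
    omega
  rw [Finset.sum_congr rfl fun G _ => this G]
  simp [Nat.card_eq_fintype_card]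

end Pool.Agent.L7h4.DC
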