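import Pool.Agent.L7h4.DC.Mat

/-!
# The flats of the matroid
-/

namespace Pool.Agent.L7h4.DC

open Module Submodule

set_option linter.unusedSectionVars false

variable {F U K : Type*} [Field F] [AddCommGroup U] [Module F U]
variable [Finite U] [Finite K] {W : Submodule F U} {c : Submodule F U → K}

/-- transversal flats of rank at most four without hyperplane classes -/
def IsA (W Γ : Submodule F U) (J : Set K) : Prop :=
  Γ ⊓ W = ⊥ ∧ finrank F Γ ≤ 3 ∧ finrank F Γ + J.ncard ≤ 4 ∧ ¬ (finrank F Γ = 3 ∧ J.ncard = 1)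

/-- transversal hyperplanes with their class -/
def IsB (W : Submodule F U) (c : Submodule F U → K) (Γ : Submodule F U) (J : Set K) : Prop :=
  Γ ⊓ W = ⊥ ∧ finrank F Γ = 4 ∧ J = {c Γ}

/-- flats that contain `W` -/
def IsC (W Γ : Submodule F U) (J : Set K) : Prop := W ≤ Γ ∧ finrank F Γ + J.ncard ≤ 7

/-- the ground set -/
def IsD (Γ : Submodule F U) (J : Set K) : Prop := Γ = ⊤ ∧ J = Set.univ

/-- the four kinds of flats -/
def IsCode (W : Submodule F U) (c : Submodule F U → K) (Γ : Submodule F U) (J : Set K) : Prop :=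
  IsA W Γ J ∨ IsB W c Γ J ∨ IsC W Γ J ∨ IsD Γ J

/-- a set of elements from its parts -/
def II (S : Set U) (J : Set K) : Set (U ⊕ K) :=
  {x | Sum.elim (fun u => u ∈ S) (fun e => e ∈ J) x}

lemma IL_II (S : Set U) (J : Set K) : IL (II S J) = S := rfl

lemma IR_II (S : Set U) (J : Set K) : IR (II S J) = J := rfl

lemma exists_basis_set (Γ : Submodule F U) : ∃ S : Set U, LinearIndepOn F id S ∧ span F S = Γ := by
  obtain ⟨b, -, h2, h3⟩ := exists_linearIndependent F (Γ : Set U)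
  exact ⟨b, h3, by rw [h2, span_eq]⟩

lemma exists_A {Γ : Submodule F U} {J : Set K} (hH : Hyp W c) (h : IsA W Γ J) :
    ∃ I : Set (U ⊕ K), Ind W c I ∧ (IL I).ncard + (IR I).ncard = finrank F Γ + J.ncard ∧
      (mat hH).closure I = ZZ Γ J := by
  obtain ⟨h1, h2, h3, h4⟩ := h
  obtain ⟨S, hS, hsp⟩ := exists_basis_set Γ
  have hn : S.ncard = finrank F Γ := by rw [← hsp, finrank_span_li hS]
  have hI : Ind W c (II S J) := by
    refine ⟨hS, ?_, ?_, ?_⟩
    · rw [IL_II, hsp, h1, finrank_bot]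
      exact Nat.zero_le _
    · rw [IL_II, IR_II]
      omega
    · rw [IL_II]
      rintro ⟨h5, -⟩
      omega
  refine ⟨II S J, hI, by rw [IL_II, IR_II, hn], ?_⟩
  rw [closure_le4 hH hI (by rw [IL_II, IR_II]; omega), IL_II, IR_II, hsp, cG_tr_else h1]
  · congr 1
    unfold cK
    rw [if_neg]
    rintro ⟨-, h6, -⟩
    omega
  · rintro ⟨h5, G, -, -, -, h6⟩
    apply h4
    exact ⟨h5, by rw [h6]; exact Set.ncard_singleton _⟩

lemma exists_B {Γ : Submodule F U} {J : Set K} (hH : Hyp W c) (h : IsB W c Γ J) :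
    ∃ I : Set (U ⊕ K), Ind W c I ∧ (IL I).ncard + (IR I).ncard = 4 ∧
      (mat hH).closure I = ZZ Γ J := by
  obtain ⟨h1, h2, h3⟩ := h
  obtain ⟨S, hS, hsp⟩ := exists_basis_set Γ
  have hn : S.ncard = finrank F Γ := by rw [← hsp, finrank_span_li hS]
  have hI : Ind W c (II S (∅ : Set K)) := by
    refine ⟨hS, ?_, ?_, ?_⟩
    · rw [IL_II, hsp, h1, finrank_bot]
      exact Nat.zero_le _
    · rw [IL_II, IR_II, Set.ncard_empty]
      omega
    · rw [IR_II]
      rintro ⟨-, -, h5⟩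
      exact Set.singleton_ne_empty _ h5.symm
  refine ⟨II S ∅, hI, by rw [IL_II, IR_II, Set.ncard_empty]; omega, ?_⟩
  rw [closure_le4 hH hI (by rw [IL_II, IR_II, Set.ncard_empty]; omega), IL_II, IR_II, hsp,
    cG_tr_else h1]
  · congr 1
    unfold cK
    rw [if_pos ⟨h1, h2, rfl⟩, h3]
  · rintro ⟨h5, -⟩
    omega

lemma exists_compl {Γ : Submodule F U} (h : W ≤ Γ) : ∃ Γ0 : Submodule F U,
    Γ0 ⊓ W = ⊥ ∧ Γ0 ⊔ W = Γ := by
  obtain ⟨C, hC⟩ := Submodule.exists_isCompl W
  refine ⟨Γ ⊓ C, ?_, ?_⟩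
  · rw [inf_assoc, inf_comm C W, hC.inf_eq_bot, inf_bot_eq]
  · rw [sup_comm, inf_comm, ← sup_inf_assoc_of_le _ h, hC.sup_eq_top, top_inf_eq]

/-- a basis of a subspace above `W`, modulo `W`, together with a vector of `W` -/
lemma exists_cone_basis (hH : Hyp W c) {Γ : Submodule F U} (h : W ≤ Γ) :
    ∃ S : Set U, LinearIndepOn F id S ∧ S.ncard + 3 = finrank F Γ ∧ span F S ⊔ W = Γ ∧
      finrank F (span F S ⊓ W : Submodule F U) = 1 := by
  obtain ⟨Γ0, h1, h2⟩ := exists_compl h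
  obtain ⟨S0, hS0, hsp⟩ := exists_basis_set Γ0
  have hn : S0.ncard = finrank F Γ0 := by rw [← hsp, finrank_span_li hS0]
  have hd := dimf Γ0 W
  rw [h2, h1, finrank_bot, hH.hW] at hd
  obtain ⟨w, hw, hw0⟩ : ∃ w ∈ W, w ≠ 0 := by
    apply Submodule.exists_mem_ne_zero_of_ne_bot
    intro h0
    have := hH.hW
    rw [h0, finrank_bot] at this
    omega
  have hwΓ : w ∉ span F S0 := by
    rw [hsp]
    intro h3
    have h4 : w ∈ Γ0 ⊓ W := ⟨h3, hw⟩
    rw [h1, Submodule.mem_bot] at h4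
    exact hw0 h4
  have hwS : w ∉ S0 := fun h3 => hwΓ (subset_span h3)
  have hS : LinearIndepOn F id (insert w S0) := (linearIndepOn_id_insert hwS).2 ⟨hS0, hwΓ⟩
  refine ⟨insert w S0, hS, ?_, ?_, ?_⟩
  · rw [Set.ncard_insert_of_notMem hwS]
    omega
  · apply le_antisymm
    · refine sup_le ?_ h
      rw [span_le]
      intro x hx
      rcases hx with rfl | hx
      · exact h hw
      · rw [← h2, ← hsp]
        exact mem_sup_left (subset_span hx)
    · rw [← h2, ← hsp]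
      exact sup_le_sup_right (span_mono (Set.subset_insert _ _)) W
  · rw [succ_of_mem hS hwS hS0 (mem_sup_right hw), hsp, h1, finrank_bot]

lemma exists_C {Γ : Submodule F U} {J : Set K} (hH : Hyp W c) (h : IsC W Γ J) :
    ∃ I : Set (U ⊕ K), Ind W c I ∧ (IL I).ncard + (IR I).ncard + 3 = finrank F Γ + J.ncard ∧
      (mat hH).closure I = ZZ Γ J := by
  obtain ⟨h1, h2⟩ := h
  obtain ⟨S, hS, hn, hsp, hone⟩ := exists_cone_basis hH h1
  have hntr : span F S ⊓ W ≠ ⊥ := by
    intro h0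
    rw [h0, finrank_bot] at hone
    omega
  have hI : Ind W c (II S J) := by
    refine ⟨hS, ?_, ?_, ?_⟩
    · rw [IL_II, hone]
    · rw [IL_II, IR_II]
      omega
    · rw [IL_II]
      rintro ⟨-, h5, -⟩
      exact hntr h5
  refine ⟨II S J, hI, by rw [IL_II, IR_II]; omega, ?_⟩
  rw [closure_le4 hH hI (by rw [IL_II, IR_II]; omega), IL_II, IR_II, cG_ntr hntr, hsp]
  congr 1
  unfold cK
  rw [if_neg]
  rintro ⟨h6, -⟩
  exact hntr h6

lemma exists_D (hH : Hyp W c) : ∃ I : Set (U ⊕ K), Ind W c I ∧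
    (IL I).ncard + (IR I).ncard = 5 := by
  obtain ⟨S, hS, hn, hsp, hone⟩ := exists_cone_basis hH (le_top : W ≤ ⊤)
  rw [finrank_top, hH.hU] at hn
  refine ⟨II S ∅, ⟨hS, ?_, ?_, ?_⟩, ?_⟩
  · rw [IL_II, hone]
  · rw [IL_II, IR_II, Set.ncard_empty]
    omega
  · rw [IL_II]
    rintro ⟨h5, -⟩
    omega
  · rw [IL_II, IR_II, Set.ncard_empty]
    omega

/-- the rank of a flat spanned by an independent set -/
lemma rk_of_basis (hH : Hyp W c) {I : Set (U ⊕ K)} (hI : Ind W c I) :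
    ((mat hH).eRk ((mat hH).closure I)).toNat = (IL I).ncard + (IR I).ncard := by
  have hI' : (mat hH).Indep I := hI
  rw [Matroid.eRk_closure_eq, hI'.eRk_eq_encard, ← ncard_split]
  rfl

/-- every flat is of one of the four kinds -/
lemma code_of_flat (hH : Hyp W c) {S : Set (U ⊕ K)} (hS : (mat hH).IsFlat S) :
    ∃ (Γ : Submodule F U) (J : Set K), IsCode W c Γ J ∧ S = ZZ Γ J := by
  obtain ⟨I, hI⟩ := (mat hH).exists_isBasis S (Set.subset_univ _)
  have hInd : Ind W c I := hI.indep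
  have hcl : S = (mat hH).closure I := by
    rw [hI.closure_eq_closure, hS.closure]
  have h5 := hInd.2.2.1
  rcases Nat.lt_or_ge ((IL I).ncard + (IR I).ncard) 5 with hlt | hge
  · have h4 : (IL I).ncard + (IR I).ncard ≤ 4 := by omega
    rw [closure_le4 hH hInd h4] at hcl
    refine ⟨_, _, ?_, hcl⟩
    obtain ⟨i1, i2, i3, i4⟩ := hInd
    have hfr : finrank F (span F (IL I)) = (IL I).ncard := finrank_span_li i1
    by_cases h : span F (IL I) ⊓ W = ⊥
    · by_cases h6 : finrank F (span F (IL I)) = 3 ∧ ∃ G : Submodule F U, span F (IL I) ≤ G ∧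
        G ⊓ W = ⊥ ∧ finrank F G = 4 ∧ IR I = {c G}
      · obtain ⟨h3, G, k1, k2, k4, k5⟩ := h6
        rw [cG_tr_special hH h h3 k1 k2 k4 k5]
        right
        left
        refine ⟨k2, k4, ?_⟩
        unfold cK
        rw [if_neg, k5]
        rintro ⟨-, h7, -⟩
        omega
      · rw [cG_tr_else h h6]
        by_cases h7 : span F (IL I) ⊓ W = ⊥ ∧ finrank F (span F (IL I)) = 4 ∧ IR I = ∅
        · right
          left
          refine ⟨h, h7.2.1, ?_⟩
          unfold cK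
          rw [if_pos h7]
        · left
          have hK : cK W c (span F (IL I)) (IR I) = IR I := by
            unfold cK
            rw [if_neg h7]
          rw [hK]
          refine ⟨h, ?_, by omega, ?_⟩
          · by_contra h8
            apply h7
            refine ⟨h, by omega, ?_⟩
            rw [← Set.ncard_eq_zero (Set.toFinite _)]
            omega
          · rintro ⟨h8, h9⟩
            apply h6
            obtain ⟨e, he⟩ := Set.ncard_eq_one.1 h9
            obtain ⟨G, ⟨g1, g2, g3, g4⟩, -⟩ := hH.ext _ h h8 e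
            exact ⟨h8, G, g1, g2, g3, by rw [he, g4]⟩
    · right
      right
      left
      rw [cG_ntr h]
      have hK : cK W c (span F (IL I)) (IR I) = IR I := by
        unfold cK
        rw [if_neg]
        rintro ⟨h6, -⟩
        exact h h6
      rw [hK]
      refine ⟨le_sup_right, ?_⟩
      have d1 := dimf (span F (IL I)) W
      have h6 : finrank F (span F (IL I) ⊓ W : Submodule F U) ≠ 0 := fun h0 =>
        h ((tr_iff _ _).2 h0)
      rw [hH.hW] at d1
      omega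
  · rw [closure_5 hH hInd (by omega)] at hcl
    refine ⟨⊤, Set.univ, Or.inr (Or.inr (Or.inr ⟨rfl, rfl⟩)), ?_⟩
    rw [hcl]
    ext x
    cases x with
    | inl u => simp [mem_ZZ_inl]
    | inr e => simp [mem_ZZ_inr]

lemma ZZ_top : (ZZ (⊤ : Submodule F U) (Set.univ : Set K)) = Set.univ := by
  ext x
  cases x with
  | inl u => simp [mem_ZZ_inl]
  | inr e => simp [mem_ZZ_inr]

lemma flat_A (hH : Hyp W c) {Γ : Submodule F U} {J : Set K} (h : IsA W Γ J) :
    (mat hH).IsFlat (ZZ Γ J) ∧ ((mat hH).eRk (ZZ Γ J)).toNat = finrank F Γ + J.ncard := by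
  obtain ⟨I, h1, h2, h3⟩ := exists_A hH h
  rw [← h3, rk_of_basis hH h1, h2]
  exact ⟨Matroid.isFlat_closure I, rfl⟩

lemma flat_B (hH : Hyp W c) {Γ : Submodule F U} {J : Set K} (h : IsB W c Γ J) :
    (mat hH).IsFlat (ZZ Γ J) ∧ ((mat hH).eRk (ZZ Γ J)).toNat = 4 := by
  obtain ⟨I, h1, h2, h3⟩ := exists_B hH h
  rw [← h3, rk_of_basis hH h1, h2]
  exact ⟨Matroid.isFlat_closure I, rfl⟩

lemma flat_C (hH : Hyp W c) {Γ : Submodule F U} {J : Set K} (h : IsC W Γ J) :
    (mat hH).IsFlat (ZZ Γ J) ∧ ((mat hH).eRk (ZZ Γ J)).toNat + 3 = finrank F Γ + J.ncard := by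
  obtain ⟨I, h1, h2, h3⟩ := exists_C hH h
  rw [← h3, rk_of_basis hH h1, h2]
  exact ⟨Matroid.isFlat_closure I, rfl⟩

lemma flat_D (hH : Hyp W c) {Γ : Submodule F U} {J : Set K} (h : IsD Γ J) :
    (mat hH).IsFlat (ZZ Γ J) ∧ ((mat hH).eRk (ZZ Γ J)).toNat = 5 := by
  obtain ⟨I, h1, h2⟩ := exists_D hH
  obtain ⟨rfl, rfl⟩ := h
  have h3 := closure_5 hH h1 h2
  rw [ZZ_top, ← h3, rk_of_basis hH h1, h2]
  exact ⟨Matroid.isFlat_closure I, rfl⟩

lemma flat_of_code (hH : Hyp W c) {Γ : Submodule F U} {J : Set K} (h : IsCode W c Γ J) :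
    (mat hH).IsFlat (ZZ Γ J) := by
  rcases h with h | h | h | h
  · exact (flat_A hH h).1
  · exact (flat_B hH h).1
  · exact (flat_C hH h).1
  · exact (flat_D hH h).1

end Pool.Agent.L7h4.DC
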