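import Pool.Agent.L7h4.DC.Sys
import Pool.Agent.L7h4.DC.Cls

/-!
# The chain sum of the matroid
-/

namespace Pool.Agent.L7h4.DC

open Polynomial Module Submodule

section rk

variable {α : Type*} [Finite α] (M : Matroid α)

/-- the rank is strictly monotone on flats -/
lemma rk_strictMono : StrictMono fun S : {S : Set α // M.IsFlat S} => (M.eRk S.1).toNat := by
  intro S T hST
  have hsub : S.1 ⊆ T.1 := hST.le
  have hne : S.1 ≠ T.1 := fun h => hST.ne (Subtype.ext h)
  have hS : M.IsRkFinite S.1 := M.isRkFinite_of_finite (Set.toFinite _)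
  have hT : M.IsRkFinite T.1 := M.isRkFinite_of_finite (Set.toFinite _)
  simp only
  by_contra hcon
  push Not at hcon
  apply hne
  have h1 : M.eRk T.1 ≤ M.eRk S.1 := by
    rw [← ENat.natCast_toNat hT.eRk_lt_top.ne, ← ENat.natCast_toNat hS.eRk_lt_top.ne]
    exact_mod_cast hcon
  have h2 := hS.closure_eq_closure_of_subset_of_eRk_ge_eRk hsub h1
  rwa [S.2.closure, T.2.closure] at h2

end rk

variable {F U K : Type*} [Field F] [Fintype F] [AddCommGroup U] [Module F U]
variable [Finite U] [Finite K] {W : Submodule F U} {c : Submodule F U → K}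

theorem hsum (hH : Hyp W c) (hq : Fintype.card F = 17) (hQ : Nat.card K = 83521)
    [Fintype {S : Set (U ⊕ K) // (mat hH).IsFlat S}]
    [LocallyFiniteOrder {S : Set (U ⊕ K) // (mat hH).IsFlat S}]
    (a t : {S : Set (U ⊕ K) // (mat hH).IsFlat S}) (ht : t.1 = Set.univ) :
    (∑ z ∈ Finset.Icc a t, (∑ j ∈ Finset.range
      (((mat hH).eRk z.1).toNat - ((mat hH).eRk a.1).toNat + 1), (X : ℤ[X]) ^ j) *
        toPoly (Hl (tau W z.1))) =
      X ^ (((mat hH).eRk t.1).toNat - ((mat hH).eRk a.1).toNat) := by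
  classical
  obtain ⟨hcode, ha⟩ := code_flat hH a.2
  set Γ := span F (IL a.1) with hΓ
  set J := IR a.1 with hJ
  set s := tau W a.1 with hs
  have hsT : s ∈ TT := mem_TT (goodT_tau hH a.2)
  have hsys := system s hsT
  rw [rk_flat hH t.2, rk_flat hH a.2, ← hs]
  have htt : tau W t.1 = (3, 0, 0) := by
    rw [ht]
    unfold tau
    rw [if_pos rfl]
  rw [htt, show rkt (3, 0, 0) = 5 from rfl, ← hsys]
  have h1 : ∀ z ∈ Finset.Icc a t, (∑ j ∈ Finset.range
      (((mat hH).eRk z.1).toNat - rkt s + 1), (X : ℤ[X]) ^ j) *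
        toPoly (Hl (tau W z.1)) = (fun t => (∑ j ∈ Finset.range (rkt t - rkt s + 1),
          (X : ℤ[X]) ^ j) * toPoly (Hl t)) (tau W z.1) := by
    intro z _
    simp only
    rw [rk_flat hH z.2]
  rw [Finset.sum_congr rfl h1]
  have hmaps : ∀ z ∈ Finset.Icc a t, tau W z.1 ∈ TT.toFinset := by
    intro z _
    rw [List.mem_toFinset]
    exact mem_TT (goodT_tau hH z.2)
  rw [← Finset.sum_fiberwise_of_maps_to hmaps]
  refine Finset.sum_congr rfl fun u hu => ?_
  have h2 : ∀ z ∈ (Finset.Icc a t).filter (fun z => tau W z.1 = u),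
      (fun t => (∑ j ∈ Finset.range (rkt t - rkt s + 1),
          (X : ℤ[X]) ^ j) * toPoly (Hl t)) (tau W z.1) =
        (∑ j ∈ Finset.range (rkt u - rkt s + 1), (X : ℤ[X]) ^ j) * toPoly (Hl u) := by
    intro z hz
    simp only
    rw [(Finset.mem_filter.1 hz).2]
  rw [Finset.sum_congr rfl h2, Finset.sum_const, nsmul_eq_mul]
  congr 2
  have hug : GoodT u := good_of_TT (List.mem_toFinset.1 hu)
  have h3 := card_Ab hH hcode hug
  rw [hq, hQ, ← ha, ← hs] at h3
  rw [← h3, Nat.card_eq_fintype_card]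
  symm
  rw [Fintype.card_subtype]
  congr 1
  ext z
  simp only [Finset.mem_filter, Finset.mem_univ, true_and, Finset.mem_Icc]
  constructor
  · rintro ⟨h4, h5⟩
    refine ⟨⟨?_, ?_⟩, h5⟩
    · rw [← ha] at h4
      exact h4
    · change z.1 ⊆ t.1
      rw [ht]
      exact Set.subset_univ _
  · rintro ⟨⟨h4, -⟩, h5⟩
    refine ⟨?_, h5⟩
    rw [← ha]
    exact h4

/-- the chain sum over the flats of the matroid -/
theorem chain_value (hH : Hyp W c) (hq : Fintype.card F = 17) (hQ : Nat.card K = 83521)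
    [Fintype {S : Set (U ⊕ K) // (mat hH).IsFlat S}]
    [DecidableEq {S : Set (U ⊕ K) // (mat hH).IsFlat S}]
    [LocallyFiniteOrder {S : Set (U ⊕ K) // (mat hH).IsFlat S}]
    (b t : {S : Set (U ⊕ K) // (mat hH).IsFlat S}) (ht : t.1 = Set.univ)
    (hb : b.1 = (mat hH).closure ∅) :
    ∑ m ∈ Finset.range (Fintype.card {S : Set (U ⊕ K) // (mat hH).IsFlat S}),
      chainSum (fun S : {S : Set (U ⊕ K) // (mat hH).IsFlat S} => ((mat hH).eRk S.1).toNat)
        (fun a => C (IncidenceAlgebra.mu ℤ b a)) t m = toPoly (Hl (0, 0, 0)) := by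
  have hbot : ∀ x, b ≤ x := by
    intro x
    change b.1 ⊆ x.1
    rw [hb, ← x.2.closure]
    exact (mat hH).closure_subset_closure (Set.empty_subset _)
  have htop : ∀ x, x ≤ t := by
    intro x
    change x.1 ⊆ t.1
    rw [ht]
    exact Set.subset_univ _
  rw [chain_formula _ (rk_strictMono (mat hH)) b t hbot htop
    (fun z => toPoly (Hl (tau W z.1))) (fun a => hsum hH hq hQ a t ht)]
  congr 2
  have hA : IsA W (⊥ : Submodule F U) (∅ : Set K) := by
    refine ⟨bot_inf_eq W, ?_, ?_, ?_⟩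
    · rw [finrank_bot]; omega
    · rw [finrank_bot, Set.ncard_empty]; omega
    · rw [finrank_bot]
      rintro ⟨h, -⟩
      omega
  have h1 := (flat_A hH hA).1
  have h2 : b = ⟨ZZ ⊥ ∅, h1⟩ := by
    apply le_antisymm (hbot _)
    change ZZ ⊥ ∅ ⊆ b.1
    rw [hb]
    intro x hx
    cases x with
    | inl u =>
      have hu : u = 0 := (Submodule.mem_bot F).1 (mem_ZZ_inl.1 hx)
      have hI : (mat hH).Indep ∅ := (mat hH).empty_indep
      rw [hI.mem_closure_iff', mat_E, mat_indep]
      refine ⟨Set.mem_univ _, ?_⟩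
      intro h3
      have h4 := h3.1
      rw [IL_insert_inl, hu] at h4
      exact absurd rfl (h4.ne_zero (Set.mem_insert _ _))
    | inr e => exact absurd (mem_ZZ_inr.1 hx) (Set.notMem_empty e)
  rw [h2, tau_A hH hA, finrank_bot, Set.ncard_empty]

end Pool.Agent.L7h4.DC
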