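import Mathlib

/-!
# A matroid from a principal truncation and free points

`U` is an eight-dimensional space over a field `F`, `W` a four-dimensional subspace. Four-dimensional
subspaces `G` with `G ∩ W = 0` (transversal ones) have a class `c G` in a set `K`, and every
three-dimensional transversal subspace is contained in exactly one four-dimensional transversal
subspace of each class. The matroid has rank five and the elements `U ⊔ K`.
-/

namespace Pool.Agent.L7h4.DC

open Module Submodule

variable {F U K : Type*} [Field F] [AddCommGroup U] [Module F U]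

/-- the assumptions on `W` and on the classes -/
structure Hyp (W : Submodule F U) (c : Submodule F U → K) : Prop where
  hU : finrank F U = 8
  hW : finrank F W = 4
  ext : ∀ Γ : Submodule F U, Γ ⊓ W = ⊥ → finrank F Γ = 3 → ∀ e : K,
    ∃! G : Submodule F U, Γ ≤ G ∧ G ⊓ W = ⊥ ∧ finrank F G = 4 ∧ c G = e

/-- the vectors of a set of elements -/
def IL (I : Set (U ⊕ K)) : Set U := Sum.inl ⁻¹' I

/-- the free points of a set of elements -/
def IR (I : Set (U ⊕ K)) : Set K := Sum.inr ⁻¹' I

/-- independent sets -/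
def Ind (W : Submodule F U) (c : Submodule F U → K) (I : Set (U ⊕ K)) : Prop :=
  LinearIndepOn F id (IL I) ∧ finrank F (span F (IL I) ⊓ W : Submodule F U) ≤ 1 ∧
    (IL I).ncard + (IR I).ncard ≤ 5 ∧
    ¬ ((IL I).ncard = 4 ∧ span F (IL I) ⊓ W = ⊥ ∧ IR I = {c (span F (IL I))})

open Classical in
/-- the vector part of the closure -/
noncomputable def cG (W : Submodule F U) (c : Submodule F U → K) (Γ : Submodule F U) (J : Set K) :
    Submodule F U :=
  if Γ ⊓ W = ⊥ then
    (if h : finrank F Γ = 3 ∧ ∃ G : Submodule F U, Γ ≤ G ∧ G ⊓ W = ⊥ ∧ finrank F G = 4 ∧ J = {c G}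
      then h.2.choose else Γ)
  else Γ ⊔ W

open Classical in
/-- the free part of the closure -/
noncomputable def cK (W : Submodule F U) (c : Submodule F U → K) (Γ : Submodule F U) (J : Set K) :
    Set K :=
  if Γ ⊓ W = ⊥ ∧ finrank F Γ = 4 ∧ J = ∅ then {c Γ} else J

lemma ncard_split [Finite U] [Finite K] (I : Set (U ⊕ K)) :
    I.ncard = (IL I).ncard + (IR I).ncard := by
  have h : I = Sum.inl '' IL I ∪ Sum.inr '' IR I := by
    ext x
    cases x <;> simp [IL, IR]
  have hd : Disjoint (Sum.inl '' IL I) (Sum.inr '' IR I : Set (U ⊕ K)) := by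
    rw [Set.disjoint_left]
    rintro _ ⟨x, -, rfl⟩ ⟨y, -, h⟩
    cases h
  conv_lhs => rw [h]
  rw [Set.ncard_union_eq hd (Set.toFinite _) (Set.toFinite _),
    Set.ncard_image_of_injective _ Sum.inl_injective,
    Set.ncard_image_of_injective _ Sum.inr_injective]

lemma finrank_span_li [Finite U] {S : Set U} (h : LinearIndepOn F id S) :
    finrank F (span F S) = S.ncard := by
  classical
  have := Fintype.ofFinite S
  rw [finrank_span_set_eq_card h, Set.ncard_eq_toFinset_card']

section finrank

variable [Finite U]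

lemma dimf (A W : Submodule F U) :
    finrank F (A ⊔ W : Submodule F U) + finrank F (A ⊓ W : Submodule F U) =
      finrank F A + finrank F W :=
  Submodule.finrank_sup_add_finrank_inf_eq A W

lemma fin_mono {A B : Submodule F U} (h : A ≤ B) : finrank F A ≤ finrank F B :=
  Submodule.finrank_mono h

lemma eq_of_fin {A B : Submodule F U} (h : A ≤ B) (h2 : finrank F B ≤ finrank F A) : A = B :=
  Submodule.eq_of_le_of_finrank_le h h2

lemma tr_iff (A W : Submodule F U) : A ⊓ W = ⊥ ↔ finrank F (A ⊓ W : Submodule F U) = 0 :=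
  (Submodule.finrank_eq_zero).symm

variable {W : Submodule F U}

lemma add_one_le {S : Set U} {u : U} (h : LinearIndepOn F id (insert u S)) (hu : u ∉ S)
    (hS : LinearIndepOn F id S) :
    finrank F (span F (insert u S) ⊓ W : Submodule F U) ≤
      finrank F (span F S ⊓ W : Submodule F U) + 1 := by
  have h1 := dimf (span F (insert u S)) W
  have h2 := dimf (span F S) W
  have h3 := fin_mono (F := F) (sup_le_sup_right (span_mono (Set.subset_insert u S)) W)
  rw [finrank_span_li h, Set.ncard_insert_of_notMem hu] at h1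
  rw [finrank_span_li hS] at h2
  omega

lemma same_of_notMem {S : Set U} {u : U} (h : LinearIndepOn F id (insert u S)) (hu : u ∉ S)
    (hS : LinearIndepOn F id S) (huW : u ∉ span F S ⊔ W) :
    finrank F (span F (insert u S) ⊓ W : Submodule F U) ≤
      finrank F (span F S ⊓ W : Submodule F U) := by
  have h1 := dimf (span F (insert u S)) W
  have h2 := dimf (span F S) W
  have h3 : finrank F (span F S ⊔ W : Submodule F U) <
      finrank F (span F (insert u S) ⊔ W : Submodule F U) := by
    apply Submodule.finrank_lt_finrank_of_lt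
    refine lt_of_le_of_ne (sup_le_sup_right (span_mono (Set.subset_insert u S)) W) ?_
    intro h0
    rw [h0] at huW
    exact huW (mem_sup_left (subset_span (Set.mem_insert _ _)))
  rw [finrank_span_li h, Set.ncard_insert_of_notMem hu] at h1
  rw [finrank_span_li hS] at h2
  omega

lemma succ_of_mem {S : Set U} {u : U} (h : LinearIndepOn F id (insert u S)) (hu : u ∉ S)
    (hS : LinearIndepOn F id S) (huW : u ∈ span F S ⊔ W) :
    finrank F (span F (insert u S) ⊓ W : Submodule F U) =
      finrank F (span F S ⊓ W : Submodule F U) + 1 := by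
  have h1 := dimf (span F (insert u S)) W
  have h2 := dimf (span F S) W
  have h3 : span F (insert u S) ⊔ W = span F S ⊔ W := by
    apply le_antisymm
    · refine sup_le ?_ le_sup_right
      rw [span_le]
      intro x hx
      rcases hx with rfl | hx
      · exact huW
      · exact mem_sup_left (subset_span hx)
    · exact sup_le_sup_right (span_mono (Set.subset_insert u S)) W
  rw [h3] at h1
  rw [finrank_span_li h, Set.ncard_insert_of_notMem hu] at h1
  rw [finrank_span_li hS] at h2
  omega

end finrank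

section cGK

variable {W : Submodule F U} {c : Submodule F U → K}

lemma cG_tr_special (hH : Hyp W c) {Γ G : Submodule F U} {J : Set K} (h : Γ ⊓ W = ⊥)
    (h3 : finrank F Γ = 3) (h1 : Γ ≤ G) (h2 : G ⊓ W = ⊥) (h4 : finrank F G = 4)
    (h5 : J = {c G}) : cG W c Γ J = G := by
  have hex : finrank F Γ = 3 ∧ ∃ G : Submodule F U, Γ ≤ G ∧ G ⊓ W = ⊥ ∧ finrank F G = 4 ∧
      J = {c G} := ⟨h3, G, h1, h2, h4, h5⟩
  unfold cG
  rw [if_pos h, dif_pos hex]
  obtain ⟨g1, g2, g3, g4⟩ := hex.2.choose_spec
  have e1 : c hex.2.choose = c G := (Set.singleton_injective (h5.symm.trans g4)).symm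
  exact (hH.ext Γ h h3 (c G)).unique ⟨g1, g2, g3, e1⟩ ⟨h1, h2, h4, rfl⟩

lemma cG_tr_else {Γ : Submodule F U} {J : Set K} (h : Γ ⊓ W = ⊥)
    (h1 : ¬ (finrank F Γ = 3 ∧ ∃ G : Submodule F U, Γ ≤ G ∧ G ⊓ W = ⊥ ∧ finrank F G = 4 ∧
      J = {c G})) : cG W c Γ J = Γ := by
  unfold cG
  rw [if_pos h, dif_neg h1]

lemma cG_ntr {Γ : Submodule F U} {J : Set K} (h : Γ ⊓ W ≠ ⊥) : cG W c Γ J = Γ ⊔ W := by
  unfold cG
  rw [if_neg h]

lemma le_cG (hH : Hyp W c) (Γ : Submodule F U) (J : Set K) : Γ ≤ cG W c Γ J := by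
  by_cases h : Γ ⊓ W = ⊥
  · by_cases h1 : finrank F Γ = 3 ∧ ∃ G : Submodule F U, Γ ≤ G ∧ G ⊓ W = ⊥ ∧ finrank F G = 4 ∧
      J = {c G}
    · obtain ⟨h3, G, g1, g2, g4, g5⟩ := h1
      rw [cG_tr_special hH h h3 g1 g2 g4 g5]
      exact g1
    · rw [cG_tr_else h h1]
  · rw [cG_ntr h]
    exact le_sup_left

lemma le_cK (Γ : Submodule F U) (J : Set K) : J ⊆ cK W c Γ J := by
  unfold cK
  split_ifs with h
  · rw [h.2.2]
    exact Set.empty_subset _
  · exact subset_rfl

end cGK

section main

set_option linter.unusedSectionVars false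

variable [Finite U] [Finite K] {W : Submodule F U} {c : Submodule F U → K}

lemma IL_insert_inl (u : U) (I : Set (U ⊕ K)) : IL (insert (Sum.inl u) I) = insert u (IL I) := by
  ext x
  simp [IL]

lemma IR_insert_inl (u : U) (I : Set (U ⊕ K)) : IR (insert (Sum.inl u) I) = IR I := by
  ext x
  simp [IR]

lemma IL_insert_inr (e : K) (I : Set (U ⊕ K)) : IL (insert (Sum.inr e) I) = IL I := by
  ext x
  simp [IL]

lemma IR_insert_inr (e : K) (I : Set (U ⊕ K)) : IR (insert (Sum.inr e) I) = insert e (IR I) := by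
  ext x
  simp [IR]

lemma ins_inl (hH : Hyp W c) {I : Set (U ⊕ K)} (hI : Ind W c I)
    (h4 : (IL I).ncard + (IR I).ncard ≤ 4) {u : U} (hu : u ∉ IL I) :
    Ind W c (insert (Sum.inl u) I) ↔ u ∉ cG W c (span F (IL I)) (IR I) := by
  obtain ⟨i1, i2, i3, i4⟩ := hI
  have hcard : (insert u (IL I)).ncard = (IL I).ncard + 1 := Set.ncard_insert_of_notMem hu
  have hfr : finrank F (span F (IL I)) = (IL I).ncard := finrank_span_li i1
  constructor
  · rintro ⟨g1, g2, g3, g4⟩
    rw [IL_insert_inl] at g1 g2 g3 g4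
    rw [IR_insert_inl] at g3 g4
    have huΓ : u ∉ span F (IL I) := ((linearIndepOn_id_insert hu).1 g1).2
    by_cases h : span F (IL I) ⊓ W = ⊥
    · by_cases h1 : finrank F (span F (IL I)) = 3 ∧ ∃ G : Submodule F U, span F (IL I) ≤ G ∧
        G ⊓ W = ⊥ ∧ finrank F G = 4 ∧ IR I = {c G}
      · obtain ⟨h3, G, k1, k2, k4, k5⟩ := h1
        rw [cG_tr_special hH h h3 k1 k2 k4 k5]
        intro huG
        apply g4
        have hsp : span F (insert u (IL I)) = G := by
          apply eq_of_fin
          · rw [span_le]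
            intro x hx
            rcases hx with rfl | hx
            · exact huG
            · exact k1 (subset_span hx)
          · rw [finrank_span_li g1, hcard, k4]
            omega
        rw [hsp]
        exact ⟨by omega, k2, k5⟩
      · rw [cG_tr_else h h1]
        exact huΓ
    · rw [cG_ntr h]
      intro huW
      have h5 := succ_of_mem g1 hu i1 huW
      have h6 : finrank F (span F (IL I) ⊓ W : Submodule F U) ≠ 0 := fun h0 =>
        h ((tr_iff _ _).2 h0)
      omega
  · intro hcu
    have huΓ : u ∉ span F (IL I) := fun h => hcu (le_cG hH _ _ h)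
    have g1 : LinearIndepOn F id (insert u (IL I)) := (linearIndepOn_id_insert hu).2 ⟨i1, huΓ⟩
    by_cases h : span F (IL I) ⊓ W = ⊥
    · refine ⟨?_, ?_, ?_, ?_⟩
      · rw [IL_insert_inl]
        exact g1
      · rw [IL_insert_inl]
        have := add_one_le (W := W) g1 hu i1
        rw [(tr_iff _ _).1 h] at this
        omega
      · rw [IL_insert_inl, IR_insert_inl, hcard]
        omega
      · rw [IL_insert_inl, IR_insert_inl, hcard]
        rintro ⟨h5, h6, h7⟩
        have h8 := cG_tr_special hH h (J := IR I) (G := span F (insert u (IL I)))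
          (by omega) (span_mono (Set.subset_insert _ _)) h6
          (by rw [finrank_span_li g1, hcard, h5]) h7
        rw [h8] at hcu
        exact hcu (subset_span (Set.mem_insert _ _))
    · rw [cG_ntr h] at hcu
      refine ⟨?_, ?_, ?_, ?_⟩
      · rw [IL_insert_inl]
        exact g1
      · rw [IL_insert_inl]
        exact (same_of_notMem g1 hu i1 hcu).trans i2
      · rw [IL_insert_inl, IR_insert_inl, hcard]
        omega
      · rw [IL_insert_inl]
        rintro ⟨-, h6, -⟩
        apply h
        rw [eq_bot_iff, ← h6]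
        exact inf_le_inf_right W (span_mono (Set.subset_insert _ _))

lemma ins_inr {I : Set (U ⊕ K)} (hI : Ind W c I)
    (h4 : (IL I).ncard + (IR I).ncard ≤ 4) {e : K} (he : e ∉ IR I) :
    Ind W c (insert (Sum.inr e) I) ↔ e ∉ cK W c (span F (IL I)) (IR I) := by
  obtain ⟨i1, i2, i3, i4⟩ := hI
  have hcard : (insert e (IR I)).ncard = (IR I).ncard + 1 := Set.ncard_insert_of_notMem he
  have hfr : finrank F (span F (IL I)) = (IL I).ncard := finrank_span_li i1
  constructor
  · rintro ⟨g1, g2, g3, g4⟩
    rw [IL_insert_inr] at g1 g2 g3 g4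
    rw [IR_insert_inr] at g3 g4
    unfold cK
    split_ifs with h
    · intro h0
      apply g4
      rw [Set.mem_singleton_iff] at h0
      refine ⟨by omega, h.1, ?_⟩
      rw [h.2.2, h0]
      simp
    · exact he
  · intro hc
    refine ⟨?_, ?_, ?_, ?_⟩
    · rw [IL_insert_inr]
      exact i1
    · rw [IL_insert_inr]
      exact i2
    · rw [IL_insert_inr, IR_insert_inr, hcard]
      omega
    · rw [IL_insert_inr, IR_insert_inr]
      rintro ⟨h5, h6, h7⟩
      have h8 : IR I = ∅ := by
        rw [← Set.ncard_eq_zero (Set.toFinite _)]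
        omega
      apply hc
      unfold cK
      rw [if_pos ⟨h6, by omega, h8⟩, ← h7]
      exact Set.mem_insert _ _

/-- a set in the closure of `I` has at most as many independent elements -/
lemma bound (hH : Hyp W c) {I J : Set (U ⊕ K)} (hI : Ind W c I) (hJ : Ind W c J)
    (_ : (IL I).ncard + (IR I).ncard ≤ 4)
    (h1 : IL J ⊆ cG W c (span F (IL I)) (IR I)) (h2 : IR J ⊆ cK W c (span F (IL I)) (IR I)) :
    (IL J).ncard + (IR J).ncard ≤ (IL I).ncard + (IR I).ncard := by
  obtain ⟨i1, i2, i3, i4⟩ := hI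
  obtain ⟨j1, j2, j3, j4⟩ := hJ
  have hfr : finrank F (span F (IL I)) = (IL I).ncard := finrank_span_li i1
  have hfj : finrank F (span F (IL J)) = (IL J).ncard := finrank_span_li j1
  have hle : span F (IL J) ≤ cG W c (span F (IL I)) (IR I) := by
    rw [span_le]
    exact h1
  have hfl := fin_mono hle
  have hn := Set.ncard_le_ncard h2 (Set.toFinite _)
  by_cases h : span F (IL I) ⊓ W = ⊥
  · by_cases h5 : finrank F (span F (IL I)) = 3 ∧ ∃ G : Submodule F U, span F (IL I) ≤ G ∧
      G ⊓ W = ⊥ ∧ finrank F G = 4 ∧ IR I = {c G}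
    · obtain ⟨h3, G, k1, k2, k4, k5⟩ := h5
      rw [cG_tr_special hH h h3 k1 k2 k4 k5] at hle hfl
      have hK : cK W c (span F (IL I)) (IR I) = IR I := by
        unfold cK
        rw [if_neg]
        rintro ⟨-, h6, -⟩
        omega
      rw [hK] at h2 hn
      have hI1 : (IR I).ncard = 1 := by rw [k5]; exact Set.ncard_singleton _
      by_contra hcon
      have e1 : (IL J).ncard = 4 := by omega
      have e2 : (IR J).ncard = 1 := by omega
      have e3 : span F (IL J) = G := eq_of_fin hle (by omega)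
      apply j4
      rw [e3]
      refine ⟨e1, k2, ?_⟩
      rw [← k5]
      exact Set.eq_of_subset_of_ncard_le h2 (by omega) (Set.toFinite _)
    · rw [cG_tr_else h h5] at hle hfl
      by_cases h6 : span F (IL I) ⊓ W = ⊥ ∧ finrank F (span F (IL I)) = 4 ∧ IR I = ∅
      · have hK : cK W c (span F (IL I)) (IR I) = {c (span F (IL I))} := by
          unfold cK
          rw [if_pos h6]
        rw [hK] at h2 hn
        rw [Set.ncard_singleton] at hn
        by_contra hcon
        have e0 : (IR I).ncard = 0 := by rw [h6.2.2]; simp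
        have e1 : (IL J).ncard = 4 := by omega
        have e2 : (IR J).ncard = 1 := by omega
        have e3 : span F (IL J) = span F (IL I) := eq_of_fin hle (by omega)
        apply j4
        rw [e3]
        refine ⟨e1, h, ?_⟩
        exact Set.eq_of_subset_of_ncard_le h2 (by rw [Set.ncard_singleton]; omega)
          (Set.toFinite _)
      · have hK : cK W c (span F (IL I)) (IR I) = IR I := by
          unfold cK
          rw [if_neg h6]
        rw [hK] at hn
        omega
  · rw [cG_ntr h] at hle hfl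
    have hK : cK W c (span F (IL I)) (IR I) = IR I := by
      unfold cK
      rw [if_neg]
      rintro ⟨h6, -⟩
      exact h h6
    rw [hK] at hn
    have d1 := dimf (span F (IL J)) W
    have d2 := dimf (span F (IL I)) W
    have d3 : finrank F (span F (IL J) ⊔ W : Submodule F U) ≤
        finrank F (span F (IL I) ⊔ W : Submodule F U) := fin_mono (sup_le hle le_sup_right)
    have h6 : finrank F (span F (IL I) ⊓ W : Submodule F U) ≠ 0 := fun h0 =>
      h ((tr_iff _ _).2 h0)
    omega

lemma ind_empty : Ind W c ∅ := by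
  refine ⟨?_, ?_, ?_, ?_⟩
  · exact linearIndepOn_empty _ _
  · have h : IL (∅ : Set (U ⊕ K)) = ∅ := rfl
    rw [h, Submodule.span_empty, bot_inf_eq, finrank_bot]
    exact Nat.zero_le _
  · simp [IL, IR]
  · simp [IL]

lemma ind_subset {I J : Set (U ⊕ K)} (hJ : Ind W c J) (hIJ : I ⊆ J) : Ind W c I := by
  obtain ⟨j1, j2, j3, j4⟩ := hJ
  have s1 : IL I ⊆ IL J := fun x hx => hIJ hx
  have s2 : IR I ⊆ IR J := fun x hx => hIJ hx
  have n1 := Set.ncard_le_ncard s1 (Set.toFinite _)
  have n2 := Set.ncard_le_ncard s2 (Set.toFinite _)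
  refine ⟨j1.mono s1, ?_, by omega, ?_⟩
  · exact (fin_mono (inf_le_inf_right W (span_mono s1))).trans j2
  · rintro ⟨h5, h6, h7⟩
    have h8 : (IR I).ncard = 1 := by rw [h7]; exact Set.ncard_singleton _
    have e1 : IL I = IL J := Set.eq_of_subset_of_ncard_le s1 (by omega) (Set.toFinite _)
    have e2 : IR I = IR J := Set.eq_of_subset_of_ncard_le s2 (by omega) (Set.toFinite _)
    apply j4
    rw [← e1, ← e2]
    exact ⟨h5, h6, h7⟩

lemma ind_aug (hH : Hyp W c) {I J : Set (U ⊕ K)} (hI : Ind W c I) (hJ : Ind W c J)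
    (hlt : I.ncard < J.ncard) : ∃ e ∈ J, e ∉ I ∧ Ind W c (insert e I) := by
  rw [ncard_split, ncard_split] at hlt
  have hj := hJ.2.2.1
  by_contra hcon
  push Not at hcon
  have h4 : (IL I).ncard + (IR I).ncard ≤ 4 := by omega
  have h1 : IL J ⊆ cG W c (span F (IL I)) (IR I) := by
    intro u hu
    by_contra hc
    have hu2 : u ∉ IL I := fun h => hc (le_cG hH _ _ (subset_span h))
    exact hcon (Sum.inl u) hu hu2 ((ins_inl hH hI h4 hu2).2 hc)
  have h2 : IR J ⊆ cK W c (span F (IL I)) (IR I) := by
    intro e he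
    by_contra hc
    have he2 : e ∉ IR I := fun h => hc (le_cK _ _ h)
    exact hcon (Sum.inr e) he he2 ((ins_inr hI h4 he2).2 hc)
  have := bound hH hI hJ h4 h1 h2
  omega

/-- the matroid -/
noncomputable def mat (hH : Hyp W c) : Matroid (U ⊕ K) :=
  (IndepMatroid.ofFinite (E := Set.univ) Set.finite_univ (Ind W c) ind_empty
    (fun _ _ hJ h => ind_subset hJ h) (fun _ _ hI hJ h => ind_aug hH hI hJ h)
    (fun _ _ => Set.subset_univ _)).matroid

lemma mat_E (hH : Hyp W c) : (mat hH).E = Set.univ := rfl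

lemma mat_indep (hH : Hyp W c) (I : Set (U ⊕ K)) : (mat hH).Indep I ↔ Ind W c I := Iff.rfl

/-- the set of elements with given parts -/
def ZZ (Γ : Submodule F U) (J : Set K) : Set (U ⊕ K) :=
  {x | Sum.elim (fun u => u ∈ Γ) (fun e => e ∈ J) x}

lemma mem_ZZ_inl {Γ : Submodule F U} {J : Set K} {u : U} : Sum.inl u ∈ ZZ Γ J ↔ u ∈ Γ := Iff.rfl

lemma mem_ZZ_inr {Γ : Submodule F U} {J : Set K} {e : K} : Sum.inr e ∈ ZZ Γ J ↔ e ∈ J := Iff.rfl

lemma ZZ_subset {Γ Γ' : Submodule F U} {J J' : Set K} :
    ZZ Γ J ⊆ ZZ Γ' J' ↔ Γ ≤ Γ' ∧ J ⊆ J' := by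
  constructor
  · intro h
    exact ⟨fun u hu => h (mem_ZZ_inl.2 hu), fun e he => h (mem_ZZ_inr.2 he)⟩
  · rintro ⟨h1, h2⟩ x hx
    cases x with
    | inl u => exact h1 hx
    | inr e => exact h2 hx

lemma closure_le4 (hH : Hyp W c) {I : Set (U ⊕ K)} (hI : Ind W c I)
    (h4 : (IL I).ncard + (IR I).ncard ≤ 4) :
    (mat hH).closure I = ZZ (cG W c (span F (IL I)) (IR I)) (cK W c (span F (IL I)) (IR I)) := by
  have hI' : (mat hH).Indep I := hI
  ext x
  rw [hI'.mem_closure_iff', mat_E, mat_indep]
  simp only [Set.mem_univ, true_and]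
  cases x with
  | inl u =>
    rw [mem_ZZ_inl]
    by_cases hu : u ∈ IL I
    · have h1 : (Sum.inl u : U ⊕ K) ∈ I := hu
      exact ⟨fun _ => le_cG hH _ _ (subset_span hu), fun _ _ => h1⟩
    · have h1 : (Sum.inl u : U ⊕ K) ∉ I := hu
      rw [ins_inl hH hI h4 hu]
      constructor
      · intro h
        by_contra hc
        exact h1 (h hc)
      · intro h hc
        exact absurd h hc
  | inr e =>
    rw [mem_ZZ_inr]
    by_cases he : e ∈ IR I
    · have h1 : (Sum.inr e : U ⊕ K) ∈ I := he
      exact ⟨fun _ => le_cK _ _ he, fun _ _ => h1⟩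
    · have h1 : (Sum.inr e : U ⊕ K) ∉ I := he
      rw [ins_inr hI h4 he]
      constructor
      · intro h
        by_contra hc
        exact h1 (h hc)
      · intro h hc
        exact absurd h hc

lemma closure_5 (hH : Hyp W c) {I : Set (U ⊕ K)} (hI : Ind W c I)
    (h5 : (IL I).ncard + (IR I).ncard = 5) : (mat hH).closure I = Set.univ := by
  have hI' : (mat hH).Indep I := hI
  ext x
  rw [hI'.mem_closure_iff', mat_E, mat_indep]
  simp only [Set.mem_univ, true_and, iff_true]
  intro h
  by_contra hx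
  have h1 := h.2.2.1
  rw [← ncard_split, Set.ncard_insert_of_notMem hx, ncard_split] at h1
  omega

end main

end Pool.Agent.L7h4.DC
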