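import Pool.Agent.L7h4.DC.Flats
import Pool.Agent.L7h4.DC.Count

/-!
# Numbers of flats above a flat
-/

namespace Pool.Agent.L7h4.DC

open Module Submodule

set_option linter.unusedSectionVars false

section J

variable {K : Type*} [Finite K]

/-- sets of given size above `J` -/
abbrev SJ (J : Set K) (n : ℕ) : Type _ := {J' : Set K // J ⊆ J' ∧ J'.ncard = n}

lemma card_SJ (J : Set K) (d : ℕ) :
    Nat.card (SJ J (J.ncard + d)) = (Nat.card K - J.ncard).choose d := by
  classical
  have := Fintype.ofFinite K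
  set C : Finset K := (Jᶜ : Set K).toFinset with hC
  have hcC : C.card = Nat.card K - J.ncard := by
    rw [hC, ← Set.ncard_eq_toFinset_card', Set.ncard_compl]
  have hmem : ∀ x, x ∈ C ↔ x ∉ J := by
    intro x
    rw [hC, Set.mem_toFinset, Set.mem_compl_iff]
  have e : SJ J (J.ncard + d) ≃ {T : Finset K // T ∈ Finset.powersetCard d C} :=
    { toFun := fun J' => ⟨(J'.1 \ J).toFinset, by
        rw [Finset.mem_powersetCard]
        constructor
        · intro x hx
          rw [Set.mem_toFinset] at hx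
          exact (hmem x).2 hx.2
        · rw [← Set.ncard_eq_toFinset_card', Set.ncard_sdiff J'.2.1, J'.2.2]
          omega⟩
      invFun := fun T => ⟨J ∪ ↑T.1, Set.subset_union_left, by
        have hT := Finset.mem_powersetCard.1 T.2
        rw [Set.ncard_union_eq _ (Set.toFinite _) (Set.toFinite _), Set.ncard_coe_finset, hT.2]
        rw [Set.disjoint_left]
        intro x hx hx2
        exact (hmem x).1 (hT.1 hx2) hx⟩
      left_inv := by
        intro J'
        apply Subtype.ext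
        simp only [Set.coe_toFinset]
        exact Set.union_sdiff_cancel J'.2.1
      right_inv := by
        intro T
        have hT := Finset.mem_powersetCard.1 T.2
        apply Subtype.ext
        ext x
        simp only [Set.mem_toFinset, Set.mem_sdiff, Set.mem_union, Finset.mem_coe]
        constructor
        · rintro ⟨h1 | h1, h2⟩
          · exact absurd h1 h2
          · exact h1
        · intro h
          exact ⟨Or.inr h, (hmem x).1 (hT.1 h)⟩ }
  rw [Nat.card_congr e, Nat.card_eq_fintype_card, Fintype.card_coe, Finset.card_powersetCard, hcC]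

end J

section sub

variable {F U : Type*} [Field F] [Fintype F] [AddCommGroup U] [Module F U] [Finite U]

/-- transversal subspaces above `Γ` -/
abbrev SA (W Γ : Submodule F U) (n : ℕ) : Type _ :=
  {G : Submodule F U // Γ ≤ G ∧ G ⊓ W = ⊥ ∧ finrank F G = n}

/-- subspaces above `Γ` and `W` -/
abbrev SC (W Γ : Submodule F U) (n : ℕ) : Type _ :=
  {G : Submodule F U // Γ ≤ G ∧ W ≤ G ∧ finrank F G = n}

/-- the number of transversal subspaces -/
def cT (q i d : ℕ) : ℕ := pr q (4 - i) d * (q ^ (i + 4)) ^ d / (pr q d d * (q ^ i) ^ d)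

/-- the number of subspaces above `W` -/
def cC (q i d : ℕ) : ℕ := pr q (4 - i) d * (q ^ (i + 4)) ^ d / (pr q d d * (q ^ (i + 4)) ^ d)

lemma pr_pos (q d : ℕ) (hq : 2 ≤ q) : 0 < pr q d d := by
  unfold pr
  refine Finset.prod_pos fun i _ => ?_
  have := Nat.pow_lt_pow_right (show 1 < q by omega) i.2
  omega

lemma tr_iff_inf {W Γ G : Submodule F U} (hΓ : Γ ⊓ W = ⊥) (hle : Γ ≤ G) :
    G ⊓ W = ⊥ ↔ G ⊓ (Γ ⊔ W) = Γ := by
  have h1 : G ⊓ (Γ ⊔ W) = Γ ⊔ G ⊓ W := by
    rw [inf_comm G (Γ ⊔ W), sup_inf_assoc_of_le _ hle, inf_comm]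
  constructor
  · intro h
    rw [h1, h, sup_bot_eq]
  · intro h
    rw [h1] at h
    have h2 : G ⊓ W ≤ Γ := by
      rw [← h]
      exact le_sup_right
    rw [eq_bot_iff, ← hΓ]
    exact le_inf h2 inf_le_right

variable {W Γ : Submodule F U}

lemma card_SA (hU : finrank F U = 8) (hW : finrank F W = 4) (hΓ : Γ ⊓ W = ⊥) (d : ℕ)
    (hd : finrank F Γ + d ≤ 4) :
    Nat.card (SA W Γ (finrank F Γ + d)) = cT (Fintype.card F) (finrank F Γ) d := by
  have hP : finrank F (Γ ⊔ W : Submodule F U) = finrank F Γ + 4 := by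
    have := dimf Γ W
    rw [hΓ, finrank_bot, hW] at this
    omega
  have h1 : Nat.card (SA W Γ (finrank F Γ + d)) = Nat.card (Tgt Γ (Γ ⊔ W) d) := by
    refine Nat.card_congr (Equiv.subtypeEquivRight fun G => ?_)
    constructor
    · rintro ⟨h1, h2, h3⟩
      exact ⟨h1, (tr_iff_inf hΓ h1).1 h2, h3⟩
    · rintro ⟨h1, h2, h3⟩
      exact ⟨h1, (tr_iff_inf hΓ h1).2 h2, h3⟩
  have h2 := card_tgt Γ (Γ ⊔ W) le_sup_left d (by rw [hP, hU]; omega)
  rw [hP, hU, show 8 - (finrank F Γ + 4) = 4 - finrank F Γ by omega] at h2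
  have hq : 2 ≤ Fintype.card F := Fintype.one_lt_card
  have hpos : 0 < pr (Fintype.card F) d d * (Fintype.card F ^ finrank F Γ) ^ d :=
    Nat.mul_pos (pr_pos _ _ hq) (by positivity)
  rw [h1]
  unfold cT
  rw [← h2, Nat.mul_div_cancel _ hpos]

lemma card_SC (hU : finrank F U = 8) {i : ℕ} (hP : finrank F (Γ ⊔ W : Submodule F U) = i + 4)
    (d : ℕ) (hd : i + d ≤ 4) :
    Nat.card (SC W Γ (i + 4 + d)) = cC (Fintype.card F) i d := by
  have h1 : Nat.card (SC W Γ (i + 4 + d)) = Nat.card (Tgt (Γ ⊔ W) (Γ ⊔ W) d) := by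
    refine Nat.card_congr (Equiv.subtypeEquivRight fun G => ?_)
    rw [hP]
    constructor
    · rintro ⟨h1, h2, h3⟩
      exact ⟨sup_le h1 h2, inf_eq_right.2 (sup_le h1 h2), h3⟩
    · rintro ⟨h1, h2, h3⟩
      exact ⟨le_sup_left.trans h1, le_sup_right.trans h1, h3⟩
  have h2 := card_tgt (Γ ⊔ W) (Γ ⊔ W) le_rfl d (by rw [hP, hU]; omega)
  rw [hP, hU, show 8 - (i + 4) = 4 - i by omega] at h2
  have hq : 2 ≤ Fintype.card F := Fintype.one_lt_card
  have hpos : 0 < pr (Fintype.card F) d d * (Fintype.card F ^ (i + 4)) ^ d :=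
    Nat.mul_pos (pr_pos _ _ hq) (by positivity)
  rw [h1]
  unfold cC
  rw [← h2, Nat.mul_div_cancel _ hpos]

/-- transversal hyperplanes of a given class above a transversal subspace -/
abbrev SB {K : Type*} (W : Submodule F U) (c : Submodule F U → K) (Γ : Submodule F U) (e : K) :
    Type _ :=
  {G : Submodule F U // Γ ≤ G ∧ G ⊓ W = ⊥ ∧ finrank F G = 4 ∧ c G = e}

/-- tuples in `G` that are independent modulo `P` -/
noncomputable def inEquiv (Γ P G : Submodule F U) (hle : Γ ≤ P) (hG : G ⊓ P = Γ) (d : ℕ) :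
    {s : {s : Fin d → U // LinearIndependent F (P.mkQ ∘ s)} // ∀ i, s.1 i ∈ G} ≃
      {s : Fin d → G // LinearIndependent F ((Γ.comap G.subtype).mkQ ∘ s)} where
  toFun s := ⟨fun i => ⟨s.1.1 i, s.2 i⟩, by
    have h := (li_mkQ_iff _ _).1 s.1.2
    rw [li_mkQ_iff]
    intro c hc
    refine h c (hle ?_)
    rw [Submodule.mem_comap] at hc
    simpa using hc⟩
  invFun s := ⟨⟨fun i => (s.1 i : U), by
    have h := (li_mkQ_iff _ _).1 s.2
    rw [li_mkQ_iff]
    intro c hc
    refine h c ?_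
    rw [Submodule.mem_comap]
    have hm : (∑ i, c i • (s.1 i : U)) ∈ G :=
      Submodule.sum_mem _ fun i _ => Submodule.smul_mem _ _ (s.1 i).2
    have h2 : (∑ i, c i • (s.1 i : U)) ∈ G ⊓ P := ⟨hm, hc⟩
    rw [hG] at h2
    simpa using h2⟩, fun i => (s.1 i).2⟩
  left_inv s := rfl
  right_inv s := rfl

lemma card_in (Γ P G : Submodule F U) (hle : Γ ≤ P) (hG : G ⊓ P = Γ) (d : ℕ)
    (hd : finrank F Γ + d ≤ finrank F G) :
    Nat.card {s : {s : Fin d → U // LinearIndependent F (P.mkQ ∘ s)} // ∀ i, s.1 i ∈ G} =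
      pr (Fintype.card F) (finrank F G - finrank F Γ) d * (Fintype.card F ^ finrank F Γ) ^ d := by
  have hΓG : Γ ≤ G := by
    rw [← hG]
    exact inf_le_left
  have hc : finrank F (Γ.comap G.subtype) = finrank F Γ :=
    (Submodule.comapSubtypeEquivOfLe hΓG).finrank_eq
  rw [Nat.card_congr (inEquiv Γ P G hle hG d), card_lift _ _ (by rw [hc]; exact hd), hc]

lemma card_SB {K : Type*} {c : Submodule F U → K} (hH : Hyp W c) (hΓ : Γ ⊓ W = ⊥)
    (hi : finrank F Γ ≤ 3) (e : K) :
    Nat.card (SB W c Γ e) = (Fintype.card F ^ 4) ^ (3 - finrank F Γ) := by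
  classical
  have hq : 2 ≤ Fintype.card F := Fintype.one_lt_card
  set d := 3 - finrank F Γ with hd
  set P := Γ ⊔ W with hP'
  have hP : finrank F P = finrank F Γ + 4 := by
    have := dimf Γ W
    rw [hΓ, finrank_bot, hH.hW] at this
    omega
  -- the extension of a tuple
  have key : ∀ s : {s : Fin d → U // LinearIndependent F (P.mkQ ∘ s)},
      ∃! G : Submodule F U, (Γ ⊔ span F (Set.range s.1)) ≤ G ∧ G ⊓ W = ⊥ ∧ finrank F G = 4 ∧
        c G = e := by
    intro s
    have h1 := (toTgt Γ P le_sup_left d s).2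
    have h2 : (toTgt Γ P le_sup_left d s).1 = Γ ⊔ span F (Set.range s.1) := rfl
    rw [h2] at h1
    refine hH.ext _ ((tr_iff_inf hΓ h1.1).2 h1.2.1) ?_ e
    rw [h1.2.2]
    omega
  let f : {s : Fin d → U // LinearIndependent F (P.mkQ ∘ s)} → SB W c Γ e := fun s =>
    ⟨(key s).choose, le_sup_left.trans (key s).choose_spec.1.1, (key s).choose_spec.1.2⟩
  have hf : ∀ (s : {s : Fin d → U // LinearIndependent F (P.mkQ ∘ s)}) (G : SB W c Γ e),
      f s = G ↔ ∀ i, s.1 i ∈ G.1 := by
    intro s G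
    constructor
    · rintro rfl i
      exact (key s).choose_spec.1.1 (mem_sup_right (subset_span ⟨i, rfl⟩))
    · intro h
      apply Subtype.ext
      refine ((key s).choose_spec.2 G.1 ⟨?_, G.2.2⟩).symm
      refine sup_le G.2.1 ?_
      rw [span_le]
      rintro _ ⟨i, rfl⟩
      exact h i
  have hfin : Fintype (SB W c Γ e) := Fintype.ofFinite _
  have h1 := card_lift P d (by rw [hP, hH.hU]; omega)
  rw [Nat.card_congr (Equiv.sigmaFiberEquiv f).symm, Nat.card_sigma] at h1
  have h2 : ∀ G : SB W c Γ e, Nat.card {s // f s = G} =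
      pr (Fintype.card F) (4 - finrank F Γ) d * (Fintype.card F ^ finrank F Γ) ^ d := by
    intro G
    have h3 := card_in Γ P G.1 le_sup_left ((tr_iff_inf hΓ G.2.1).1 G.2.2.1) d
      (by rw [G.2.2.2.1]; omega)
    rw [G.2.2.2.1] at h3
    rw [← h3]
    exact Nat.card_congr (Equiv.subtypeEquivRight fun s => hf s G)
  rw [Finset.sum_congr rfl fun G _ => h2 G, Finset.sum_const, smul_eq_mul, Finset.card_univ,
    ← Nat.card_eq_fintype_card, hP, hH.hU,
    show 8 - (finrank F Γ + 4) = 4 - finrank F Γ by omega] at h1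
  have hp1 : 0 < pr (Fintype.card F) (4 - finrank F Γ) d := by
    unfold pr
    refine Finset.prod_pos fun i _ => ?_
    have := Nat.pow_lt_pow_right (show 1 < Fintype.card F by omega)
      (show i.1 < 4 - finrank F Γ by have := i.2; omega)
    omega
  have hp2 : 0 < (Fintype.card F ^ finrank F Γ) ^ d := by positivity
  have h4 : pr (Fintype.card F) (4 - finrank F Γ) d * (Fintype.card F ^ finrank F Γ) ^ d *
      Nat.card (SB W c Γ e) = pr (Fintype.card F) (4 - finrank F Γ) d *
        (Fintype.card F ^ finrank F Γ) ^ d * (Fintype.card F ^ 4) ^ d := by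
    rw [mul_comm, h1, pow_add, mul_pow]
    ring
  exact Nat.eq_of_mul_eq_mul_left (Nat.mul_pos hp1 hp2) h4

end sub

end Pool.Agent.L7h4.DC
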