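import Pool.Agent.L7h4.DC.Types
import Pool.Agent.L7h4.DC.Chain

/-!
# The linear system for the matroid over the field with 17 elements
-/

namespace Pool.Agent.L7h4.DC

open Polynomial Module

/-- sums of coefficient lists -/
def addL : List ℤ → List ℤ → List ℤ
  | [], l => l
  | a :: l, [] => a :: l
  | a :: l, b :: m => (a + b) :: addL l m

/-- multiples of coefficient lists -/
def smulL (n : ℤ) (l : List ℤ) : List ℤ := l.map (n * ·)

/-- multiplication with `1 + x + ... + x^(d-1)` -/
def geomL : ℕ → List ℤ → List ℤ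
  | 0, _ => []
  | d + 1, l => addL l (0 :: geomL d l)

/-- the monomial `x^d` -/
def monoL : ℕ → List ℤ
  | 0 => [1]
  | d + 1 => 0 :: monoL d

/-- the polynomial of a coefficient list -/
noncomputable def toPoly : List ℤ → ℤ[X]
  | [] => 0
  | a :: l => C a + X * toPoly l

lemma toPoly_add (l m : List ℤ) : toPoly (addL l m) = toPoly l + toPoly m := by
  induction l generalizing m with
  | nil => simp [addL, toPoly]
  | cons a l ih =>
    cases m with
    | nil => simp [addL, toPoly]
    | cons b m =>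
      simp only [addL, toPoly, ih, map_add]
      ring

lemma toPoly_smul (n : ℤ) (l : List ℤ) : toPoly (smulL n l) = C n * toPoly l := by
  induction l with
  | nil => simp [smulL, toPoly]
  | cons a l ih =>
    unfold smulL at ih ⊢
    simp only [List.map_cons, toPoly, ih, map_mul]
    ring

lemma toPoly_geom (d : ℕ) (l : List ℤ) :
    toPoly (geomL d l) = (∑ j ∈ Finset.range d, X ^ j) * toPoly l := by
  induction d with
  | zero => simp [geomL, toPoly]
  | succ d ih =>
    rw [geomL, toPoly_add, toPoly, ih, Finset.sum_range_succ']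
    simp only [pow_zero, map_zero, zero_add, pow_succ, ← Finset.sum_mul]
    ring

lemma toPoly_mono (d : ℕ) : toPoly (monoL d) = X ^ d := by
  induction d with
  | zero => simp [monoL, toPoly]
  | succ d ih =>
    rw [monoL, toPoly, ih, pow_succ]
    simp only [map_zero, zero_add]
    ring

lemma toPoly_zero (l : List ℤ) (h : l.all (fun a => decide (a = 0)) = true) : toPoly l = 0 := by
  induction l with
  | nil => rfl
  | cons a l ih =>
    simp only [List.all_cons, Bool.and_eq_true, decide_eq_true_eq] at h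
    rw [toPoly, h.1, ih h.2]
    simp

/-- the types -/
def TT : List (ℕ × ℕ × ℕ) := [(0, 0, 0), (0, 0, 1), (0, 0, 2), (0, 0, 3), (0, 0, 4), (0, 1, 0), (0, 1, 1), (0, 1, 2), (0, 1, 3), (0, 2, 0), (0, 2, 1), (0, 2, 2), (0, 3, 0), (1, 0, 0), (2, 0, 0), (2, 0, 1), (2, 0, 2), (2, 0, 3), (2, 1, 0), (2, 1, 1), (2, 1, 2), (2, 2, 0), (2, 2, 1), (2, 3, 0), (3, 0, 0)]

/-- the solution of the linear system -/
def Hl (t : ℕ × ℕ × ℕ) : List ℤ :=
  if t = (0, 0, 0) then [-1284824609375772999899555220, -5786425564117141293375977672, -9088146611582603648930892293, -5786425564117141293375977672, -1284824609375772999899555220] else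
  if t = (0, 0, 1) then [1762078587720639985091, 7214558048638440005852, 7214558048638440005852, 1762078587720639985091] else
  if t = (0, 0, 2) then [-10594294714080611, -21846057182774891, -10594294714080611] else
  if t = (0, 0, 3) then [436063138, 436063138] else
  if t = (0, 0, 4) then [-1] else
  if t = (0, 1, 0) then [3130233998956477859, 10284830779046295628, 10284830779046295628, 3130233998956477859] else
  if t = (0, 1, 1) then [-4279601423826, -10711198335799, -4279601423826] else
  if t = (0, 1, 2) then [25724466, 25724466] else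
  if t = (0, 1, 3) then [-1] else
  if t = (0, 2, 0) then [-129051470898, -268566619735, -129051470898] else
  if t = (0, 2, 1) then [167041, 167041] else
  if t = (0, 2, 2) then [-1] else
  if t = (0, 3, 0) then [83521, 83521] else
  if t = (1, 0, 0) then [-1] else
  if t = (2, 0, 0) then [115429237558500, 807778392503591, 807778392503591, 115429237558500] else
  if t = (2, 0, 1) then [-3925152611, -11774122091, -3925152611] else
  if t = (2, 0, 2) then [88738, 88738] else
  if t = (2, 0, 3) then [-1] else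
  if t = (2, 1, 0) then [-3513399299, -10540276811, -3513399299] else
  if t = (2, 1, 1) then [83826, 83826] else
  if t = (2, 1, 2) then [-1] else
  if t = (2, 2, 0) then [83538, 83538] else
  if t = (2, 2, 1) then [-1] else
  if t = (2, 3, 0) then [-1] else
  if t = (3, 0, 0) then [1] else
  []

/-- products, computed by recursion -/
def prr (q n : ℕ) : ℕ → ℕ
  | 0 => 1
  | d + 1 => prr q n d * (q ^ n - q ^ d)

lemma pr_eq (q n d : ℕ) : pr q n d = prr q n d := by
  induction d with
  | zero => simp [pr, prr]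
  | succ d ih =>
    unfold pr at ih ⊢
    rw [Fin.prod_univ_castSucc, prr, ← ih]
    rfl

/-- the number of flats, in computable form -/
def NC (q Q : ℕ) (s t : ℕ × ℕ × ℕ) : ℕ :=
  if t.1 = 3 then 1
  else if s.1 = 0 then
    (if t.1 = 0 then
        (if s.2.1 ≤ t.2.1 then
          prr q (4 - s.2.1) (t.2.1 - s.2.1) * (q ^ (s.2.1 + 4)) ^ (t.2.1 - s.2.1) /
            (prr q (t.2.1 - s.2.1) (t.2.1 - s.2.1) * (q ^ s.2.1) ^ (t.2.1 - s.2.1)) else 0) *
          Jc Q s.2.2 t.2.2
      else if t.1 = 1 then
        (if s.2.2 = 0 then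
          prr q (4 - s.2.1) (4 - s.2.1) * (q ^ (s.2.1 + 4)) ^ (4 - s.2.1) /
            (prr q (4 - s.2.1) (4 - s.2.1) * (q ^ s.2.1) ^ (4 - s.2.1))
          else if s.2.2 = 1 then (q ^ 4) ^ (3 - s.2.1) else 0)
      else (if s.2.1 ≤ t.2.1 then
          prr q (4 - s.2.1) (t.2.1 - s.2.1) * (q ^ (s.2.1 + 4)) ^ (t.2.1 - s.2.1) /
            (prr q (t.2.1 - s.2.1) (t.2.1 - s.2.1) *
              (q ^ (s.2.1 + 4)) ^ (t.2.1 - s.2.1)) else 0) * Jc Q s.2.2 t.2.2)
  else if s.1 = 1 then (if t.1 = 1 then 1 else 0)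
  else if s.1 = 2 then
    (if t.1 = 2 then
      (if s.2.1 ≤ t.2.1 then
          prr q (4 - s.2.1) (t.2.1 - s.2.1) * (q ^ (s.2.1 + 4)) ^ (t.2.1 - s.2.1) /
            (prr q (t.2.1 - s.2.1) (t.2.1 - s.2.1) *
              (q ^ (s.2.1 + 4)) ^ (t.2.1 - s.2.1)) else 0) * Jc Q s.2.2 t.2.2 else 0)
  else 0

lemma NN_eq (q Q : ℕ) (s t : ℕ × ℕ × ℕ) : NN q Q s t = NC q Q s t := by
  unfold NN NC cT cC
  simp only [pr_eq]

/-- the left side of the linear system -/
def Sl (s : ℕ × ℕ × ℕ) : List ℤ :=
  TT.foldr (fun t acc => addL (smulL (NC 17 83521 s t) (geomL (rkt t - rkt s + 1) (Hl t))) acc) []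

lemma toPoly_foldr (L : List (ℕ × ℕ × ℕ)) (s : ℕ × ℕ × ℕ) :
    toPoly (L.foldr (fun t acc => addL (smulL (NC 17 83521 s t)
      (geomL (rkt t - rkt s + 1) (Hl t))) acc) []) =
      (L.map fun t => (NC 17 83521 s t : ℤ[X]) * ((∑ j ∈ Finset.range (rkt t - rkt s + 1), X ^ j) *
        toPoly (Hl t))).sum := by
  induction L with
  | nil => simp [toPoly]
  | cons t L ih =>
    rw [List.foldr_cons, toPoly_add, ih, List.map_cons, List.sum_cons, toPoly_smul, toPoly_geom]
    simp

lemma check : ∀ s ∈ TT,
    (addL (Sl s) (smulL (-1) (monoL (5 - rkt s)))).all (fun a => decide (a = 0)) = true := by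
  decide +kernel

lemma TT_nodup : TT.Nodup := by decide

lemma system (s : ℕ × ℕ × ℕ) (hs : s ∈ TT) :
    (∑ t ∈ TT.toFinset, (NN 17 83521 s t : ℤ[X]) *
      ((∑ j ∈ Finset.range (rkt t - rkt s + 1), X ^ j) * toPoly (Hl t))) = X ^ (5 - rkt s) := by
  have h1 := toPoly_zero _ (check s hs)
  rw [toPoly_add, toPoly_smul, toPoly_mono] at h1
  unfold Sl at h1
  rw [toPoly_foldr] at h1
  rw [List.sum_toFinset _ TT_nodup]
  simp only [NN_eq]
  simp only [map_neg, map_one, neg_mul, one_mul] at h1
  linear_combination h1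

lemma mem_TT {t : ℕ × ℕ × ℕ} (h : GoodT t) : t ∈ TT := by
  obtain ⟨k, i, j⟩ := t
  rcases h with ⟨hk, h1, h2, h3⟩ | h | ⟨hk, h1⟩ | h
  · simp only at hk h1 h2 h3
    subst hk
    have hj : j ≤ 4 := by omega
    interval_cases i <;> interval_cases j <;> first | omega | decide
  · rw [h]
    decide
  · simp only at hk h1
    subst hk
    have hi : i ≤ 3 := by omega
    have hj : j ≤ 3 := by omega
    interval_cases i <;> interval_cases j <;> first | omega | decide
  · rw [h]
    decide

lemma good_of_TT {t : ℕ × ℕ × ℕ} (h : t ∈ TT) : GoodT t := by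
  unfold GoodT
  revert t
  decide

end Pool.Agent.L7h4.DC
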