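import Pool.Agent.L7h4.DC.Num

/-!
# Types of flats, and the numbers of flats of a given type above a flat
-/

namespace Pool.Agent.L7h4.DC

open Module Submodule

set_option linter.unusedSectionVars false

section tau

variable {F U K : Type*} [Field F] [AddCommGroup U] [Module F U]
variable [Finite U] [Finite K] {W : Submodule F U} {c : Submodule F U → K}

open Classical in
/-- the type of a flat -/
noncomputable def tau (W : Submodule F U) (S : Set (U ⊕ K)) : ℕ × ℕ × ℕ :=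
  if S = Set.univ then (3, 0, 0)
  else if span F (IL S) ⊓ W = ⊥ then
    (if finrank F (span F (IL S)) = 4 then (1, 0, 0)
      else (0, finrank F (span F (IL S)), (IR S).ncard))
  else (2, finrank F (span F (IL S)) - 4, (IR S).ncard)

lemma span_ZZ (Γ : Submodule F U) (J : Set K) : span F (IL (ZZ Γ J)) = Γ := span_eq Γ

lemma IR_ZZ (Γ : Submodule F U) (J : Set K) : IR (ZZ Γ J) = J := rfl

lemma ZZ_eq_univ (Γ : Submodule F U) (J : Set K) : ZZ Γ J = Set.univ ↔ Γ = ⊤ ∧ J = Set.univ := by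
  constructor
  · intro h
    constructor
    · rw [← span_ZZ Γ J, h]
      rw [eq_top_iff]
      intro x _
      exact subset_span (Set.mem_univ _)
    · rw [← IR_ZZ Γ J, h]
      rfl
  · rintro ⟨rfl, rfl⟩
    exact ZZ_top

lemma W_ne (hH : Hyp W c) : W ≠ ⊥ := by
  intro h0
  have := hH.hW
  rw [h0, finrank_bot] at this
  omega

lemma tau_A (hH : Hyp W c) {Γ : Submodule F U} {J : Set K} (h : IsA W Γ J) :
    tau W (ZZ Γ J) = (0, finrank F Γ, J.ncard) := by
  unfold tau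
  rw [if_neg, span_ZZ, IR_ZZ, if_pos h.1, if_neg]
  · have := h.2.1
    omega
  · rw [ZZ_eq_univ]
    rintro ⟨rfl, -⟩
    have := h.2.1
    rw [finrank_top, hH.hU] at this
    omega

lemma tau_B (hH : Hyp W c) {Γ : Submodule F U} {J : Set K} (h : IsB W c Γ J) :
    tau W (ZZ Γ J) = (1, 0, 0) := by
  unfold tau
  rw [if_neg, span_ZZ, if_pos h.1, if_pos h.2.1]
  rw [ZZ_eq_univ]
  rintro ⟨rfl, -⟩
  have := h.2.1
  rw [finrank_top, hH.hU] at this
  omega

lemma tau_C (hH : Hyp W c) {Γ : Submodule F U} {J : Set K} (h : IsC W Γ J) :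
    tau W (ZZ Γ J) = (2, finrank F Γ - 4, J.ncard) := by
  unfold tau
  rw [if_neg, span_ZZ, IR_ZZ, if_neg]
  · rw [inf_eq_right.2 h.1]
    exact W_ne hH
  · rw [ZZ_eq_univ]
    rintro ⟨rfl, -⟩
    have := h.2
    rw [finrank_top, hH.hU] at this
    omega

lemma tau_D {Γ : Submodule F U} {J : Set K} (h : IsD Γ J) :
    tau W (ZZ Γ J) = (3, 0, 0) := by
  unfold tau
  rw [if_pos]
  rw [ZZ_eq_univ]
  exact h

lemma code_flat (hH : Hyp W c) {S : Set (U ⊕ K)} (hS : (mat hH).IsFlat S) :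
    IsCode W c (span F (IL S)) (IR S) ∧ S = ZZ (span F (IL S)) (IR S) := by
  obtain ⟨Γ, J, h1, h2⟩ := code_of_flat hH hS
  rw [h2, span_ZZ, IR_ZZ]
  exact ⟨h1, rfl⟩

lemma C_four (hH : Hyp W c) {Γ : Submodule F U} {J : Set K} (h : IsC W Γ J) :
    4 ≤ finrank F Γ := by
  have := fin_mono h.1
  rw [hH.hW] at this
  exact this

/-- rank of a type -/
def rkt (t : ℕ × ℕ × ℕ) : ℕ :=
  if t.1 = 0 then t.2.1 + t.2.2 else if t.1 = 1 then 4 else if t.1 = 2 then t.2.1 + t.2.2 + 1 else 5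

lemma rk_flat (hH : Hyp W c) {S : Set (U ⊕ K)} (hS : (mat hH).IsFlat S) :
    ((mat hH).eRk S).toNat = rkt (tau W S) := by
  obtain ⟨Γ, J, h1, rfl⟩ := code_of_flat hH hS
  rcases h1 with h | h | h | h
  · rw [(flat_A hH h).2, tau_A hH h]
    rfl
  · rw [(flat_B hH h).2, tau_B hH h]
    rfl
  · have h3 := (flat_C hH h).2
    have h4 := C_four hH h
    rw [tau_C hH h]
    have h5 : rkt (2, finrank F Γ - 4, J.ncard) = finrank F Γ - 4 + J.ncard + 1 := rfl
    rw [h5]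
    omega
  · rw [(flat_D hH h).2, tau_D h]
    rfl

lemma isA_of_tau (hH : Hyp W c) {S : Set (U ⊕ K)} (hS : (mat hH).IsFlat S) {i j : ℕ}
    (h : tau W S = (0, i, j)) :
    IsA W (span F (IL S)) (IR S) ∧ finrank F (span F (IL S)) = i ∧ (IR S).ncard = j := by
  obtain ⟨h1, h2⟩ := code_flat hH hS
  rw [h2] at h
  rcases h1 with h1 | h1 | h1 | h1
  · rw [tau_A hH h1, Prod.mk.injEq, Prod.mk.injEq] at h
    exact ⟨h1, h.2.1, h.2.2⟩
  · rw [tau_B hH h1] at h
    simp at h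
  · rw [tau_C hH h1] at h
    simp at h
  · rw [tau_D h1] at h
    simp at h

lemma isB_of_tau (hH : Hyp W c) {S : Set (U ⊕ K)} (hS : (mat hH).IsFlat S)
    (h : tau W S = (1, 0, 0)) : IsB W c (span F (IL S)) (IR S) := by
  obtain ⟨h1, h2⟩ := code_flat hH hS
  rw [h2] at h
  rcases h1 with h1 | h1 | h1 | h1
  · rw [tau_A hH h1] at h
    simp at h
  · exact h1
  · rw [tau_C hH h1] at h
    simp at h
  · rw [tau_D h1] at h
    simp at h

lemma isC_of_tau (hH : Hyp W c) {S : Set (U ⊕ K)} (hS : (mat hH).IsFlat S) {i j : ℕ}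
    (h : tau W S = (2, i, j)) :
    IsC W (span F (IL S)) (IR S) ∧ finrank F (span F (IL S)) = i + 4 ∧ (IR S).ncard = j := by
  obtain ⟨h1, h2⟩ := code_flat hH hS
  rw [h2] at h
  rcases h1 with h1 | h1 | h1 | h1
  · rw [tau_A hH h1] at h
    simp at h
  · rw [tau_B hH h1] at h
    simp at h
  · have h4 := C_four hH h1
    rw [tau_C hH h1, Prod.mk.injEq, Prod.mk.injEq] at h
    exact ⟨h1, by omega, h.2.2⟩
  · rw [tau_D h1] at h
    simp at h

lemma univ_of_tau (hH : Hyp W c) {S : Set (U ⊕ K)} (hS : (mat hH).IsFlat S)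
    (h : tau W S = (3, 0, 0)) : S = Set.univ := by
  obtain ⟨h1, h2⟩ := code_flat hH hS
  rw [h2] at h
  rcases h1 with h1 | h1 | h1 | h1
  · rw [tau_A hH h1] at h
    simp at h
  · rw [tau_B hH h1] at h
    simp at h
  · rw [tau_C hH h1] at h
    simp at h
  · rw [h2]
    exact (ZZ_eq_univ _ _).2 h1

/-- the flats above `ZZ Γ J` of type `t` -/
abbrev Ab (hH : Hyp W c) (Γ : Submodule F U) (J : Set K) (t : ℕ × ℕ × ℕ) : Type _ :=
  {Z : {S : Set (U ⊕ K) // (mat hH).IsFlat S} // ZZ Γ J ⊆ Z.1 ∧ tau W Z.1 = t}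

lemma ZZ_sub_iff (hH : Hyp W c) (Γ : Submodule F U) (J : Set K) {S : Set (U ⊕ K)}
    (hS : (mat hH).IsFlat S) : ZZ Γ J ⊆ S ↔ Γ ≤ span F (IL S) ∧ J ⊆ IR S := by
  conv_lhs => rw [(code_flat hH hS).2]
  exact ZZ_subset

/-- flats of kind 0 -/
noncomputable def equiv0 (hH : Hyp W c) (Γ : Submodule F U) (J : Set K) {i j : ℕ} (h1 : i ≤ 3)
    (h2 : i + j ≤ 4) (h3 : ¬ (i = 3 ∧ j = 1)) :
    Ab hH Γ J (0, i, j) ≃ SA W Γ i × SJ J j where
  toFun Z := (⟨span F (IL Z.1.1), ((ZZ_sub_iff hH Γ J Z.1.2).1 Z.2.1).1,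
      (isA_of_tau hH Z.1.2 Z.2.2).1.1, (isA_of_tau hH Z.1.2 Z.2.2).2.1⟩,
    ⟨IR Z.1.1, ((ZZ_sub_iff hH Γ J Z.1.2).1 Z.2.1).2, (isA_of_tau hH Z.1.2 Z.2.2).2.2⟩)
  invFun p :=
    have hA : IsA W p.1.1 p.2.1 := ⟨p.1.2.2.1, by rw [p.1.2.2.2]; exact h1,
      by rw [p.1.2.2.2, p.2.2.2]; exact h2, by rw [p.1.2.2.2, p.2.2.2]; exact h3⟩
    ⟨⟨ZZ p.1.1 p.2.1, (flat_A hH hA).1⟩, ZZ_subset.2 ⟨p.1.2.1, p.2.2.1⟩,
      by rw [tau_A hH hA, p.1.2.2.2, p.2.2.2]⟩
  left_inv Z := by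
    apply Subtype.ext
    apply Subtype.ext
    exact (code_flat hH Z.1.2).2.symm
  right_inv p := by
    apply Prod.ext
    · apply Subtype.ext
      exact span_ZZ _ _
    · apply Subtype.ext
      rfl

/-- flats of kind 1 -/
noncomputable def equiv1 (hH : Hyp W c) (Γ : Submodule F U) (J : Set K) :
    Ab hH Γ J (1, 0, 0) ≃
      {G : Submodule F U // Γ ≤ G ∧ G ⊓ W = ⊥ ∧ finrank F G = 4 ∧ J ⊆ {c G}} where
  toFun Z := ⟨span F (IL Z.1.1), ((ZZ_sub_iff hH Γ J Z.1.2).1 Z.2.1).1,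
      (isB_of_tau hH Z.1.2 Z.2.2).1, (isB_of_tau hH Z.1.2 Z.2.2).2.1, by
      rw [← (isB_of_tau hH Z.1.2 Z.2.2).2.2]
      exact ((ZZ_sub_iff hH Γ J Z.1.2).1 Z.2.1).2⟩
  invFun p :=
    have hB : IsB W c p.1 {c p.1} := ⟨p.2.2.1, p.2.2.2.1, rfl⟩
    ⟨⟨ZZ p.1 {c p.1}, (flat_B hH hB).1⟩, ZZ_subset.2 ⟨p.2.1, p.2.2.2.2⟩, tau_B hH hB⟩
  left_inv Z := by
    apply Subtype.ext
    apply Subtype.ext
    simp only
    rw [← (isB_of_tau hH Z.1.2 Z.2.2).2.2]
    exact (code_flat hH Z.1.2).2.symm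
  right_inv p := by
    apply Subtype.ext
    exact span_ZZ _ _

/-- flats of kind 2 -/
noncomputable def equiv2 (hH : Hyp W c) (Γ : Submodule F U) (J : Set K) {i j : ℕ}
    (h2 : i + j ≤ 3) : Ab hH Γ J (2, i, j) ≃ SC W Γ (i + 4) × SJ J j where
  toFun Z := (⟨span F (IL Z.1.1), ((ZZ_sub_iff hH Γ J Z.1.2).1 Z.2.1).1,
      (isC_of_tau hH Z.1.2 Z.2.2).1.1, (isC_of_tau hH Z.1.2 Z.2.2).2.1⟩,
    ⟨IR Z.1.1, ((ZZ_sub_iff hH Γ J Z.1.2).1 Z.2.1).2, (isC_of_tau hH Z.1.2 Z.2.2).2.2⟩)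
  invFun p :=
    have hA : IsC W p.1.1 p.2.1 := ⟨p.1.2.2.1, by
      rw [p.1.2.2.2, p.2.2.2]; omega⟩
    ⟨⟨ZZ p.1.1 p.2.1, (flat_C hH hA).1⟩, ZZ_subset.2 ⟨p.1.2.1, p.2.2.1⟩,
      by rw [tau_C hH hA, p.1.2.2.2, p.2.2.2]; rfl⟩
  left_inv Z := by
    apply Subtype.ext
    apply Subtype.ext
    exact (code_flat hH Z.1.2).2.symm
  right_inv p := by
    apply Prod.ext
    · apply Subtype.ext
      exact span_ZZ _ _
    · apply Subtype.ext
      rfl

lemma card3 (hH : Hyp W c) (Γ : Submodule F U) (J : Set K) :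
    Nat.card (Ab hH Γ J (3, 0, 0)) = 1 := by
  rw [Nat.card_eq_one_iff_unique]
  constructor
  · constructor
    intro a b
    apply Subtype.ext
    apply Subtype.ext
    rw [univ_of_tau hH a.1.2 a.2.2, univ_of_tau hH b.1.2 b.2.2]
  · have hD : IsD (⊤ : Submodule F U) (Set.univ : Set K) := ⟨rfl, rfl⟩
    exact ⟨⟨⟨ZZ ⊤ Set.univ, (flat_D hH hD).1⟩, ZZ_subset.2 ⟨le_top, Set.subset_univ _⟩,
      tau_D hD⟩⟩

end tau

section count

variable {F U K : Type*} [Field F] [Fintype F] [AddCommGroup U] [Module F U]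
variable [Finite U] [Finite K] {W : Submodule F U} {c : Submodule F U → K}

/-- number of sets of size `j'` above a set of size `j` -/
def Jc (Q j j' : ℕ) : ℕ :=
  if j ≤ j' then (Q - j).descFactorial (j' - j) / Nat.factorial (j' - j) else 0

/-- number of flats of type `t` above a flat of type `s` -/
def NN (q Q : ℕ) (s t : ℕ × ℕ × ℕ) : ℕ :=
  if t.1 = 3 then 1
  else if s.1 = 0 then
    (if t.1 = 0 then
        (if s.2.1 ≤ t.2.1 then cT q s.2.1 (t.2.1 - s.2.1) else 0) * Jc Q s.2.2 t.2.2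
      else if t.1 = 1 then
        (if s.2.2 = 0 then cT q s.2.1 (4 - s.2.1)
          else if s.2.2 = 1 then (q ^ 4) ^ (3 - s.2.1) else 0)
      else (if s.2.1 ≤ t.2.1 then cC q s.2.1 (t.2.1 - s.2.1) else 0) * Jc Q s.2.2 t.2.2)
  else if s.1 = 1 then (if t.1 = 1 then 1 else 0)
  else if s.1 = 2 then
    (if t.1 = 2 then
      (if s.2.1 ≤ t.2.1 then cC q s.2.1 (t.2.1 - s.2.1) else 0) * Jc Q s.2.2 t.2.2 else 0)
  else 0

/-- the types that occur -/
def GoodT (t : ℕ × ℕ × ℕ) : Prop :=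
  (t.1 = 0 ∧ t.2.1 ≤ 3 ∧ t.2.1 + t.2.2 ≤ 4 ∧ ¬ (t.2.1 = 3 ∧ t.2.2 = 1)) ∨ t = (1, 0, 0) ∨
    (t.1 = 2 ∧ t.2.1 + t.2.2 ≤ 3) ∨ t = (3, 0, 0)

lemma goodT_tau (hH : Hyp W c) {S : Set (U ⊕ K)} (hS : (mat hH).IsFlat S) :
    GoodT (tau W S) := by
  obtain ⟨h1, h2⟩ := code_flat hH hS
  rcases h1 with h | h | h | h
  · left
    rw [h2, tau_A hH h]
    exact ⟨rfl, h.2⟩
  · right; left
    rw [h2, tau_B hH h]
  · right; right; left
    have h4 := C_four hH h
    have h5 := h.2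
    rw [h2, tau_C hH h]
    refine ⟨rfl, ?_⟩
    simp only
    omega
  · right; right; right
    rw [h2, tau_D h]

lemma card_SJ' (J : Set K) (j' : ℕ) : Nat.card (SJ J j') = Jc (Nat.card K) J.ncard j' := by
  unfold Jc
  split_ifs with h
  · have h1 := card_SJ J (j' - J.ncard)
    rw [Nat.add_sub_cancel' h] at h1
    rw [h1, Nat.choose_eq_descFactorial_div_factorial]
  · have : IsEmpty (SJ J j') := ⟨fun J' => by
      have := Set.ncard_le_ncard J'.2.1 (Set.toFinite _)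
      rw [J'.2.2] at this
      exact h this⟩
    exact Nat.card_of_isEmpty

lemma card_SA' (hH : Hyp W c) {Γ : Submodule F U} (hΓ : Γ ⊓ W = ⊥) (i' : ℕ) (hi' : i' ≤ 4) :
    Nat.card (SA W Γ i') =
      if finrank F Γ ≤ i' then cT (Fintype.card F) (finrank F Γ) (i' - finrank F Γ) else 0 := by
  split_ifs with h
  · have h1 := card_SA hH.hU hH.hW hΓ (i' - finrank F Γ) (by omega)
    rw [Nat.add_sub_cancel' h] at h1
    exact h1
  · have : IsEmpty (SA W Γ i') := ⟨fun G => by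
      have := fin_mono G.2.1
      rw [G.2.2.2] at this
      exact h this⟩
    exact Nat.card_of_isEmpty

lemma card_SA_zero (hH : Hyp W c) {Γ : Submodule F U} (hΓ : W ≤ Γ) (i' : ℕ) :
    Nat.card (SA W Γ i') = 0 := by
  have : IsEmpty (SA W Γ i') := ⟨fun G => by
    have h1 := G.2.2.1
    rw [inf_eq_right.2 (hΓ.trans G.2.1)] at h1
    exact W_ne hH h1⟩
  exact Nat.card_of_isEmpty

lemma card_SC' (hH : Hyp W c) {Γ : Submodule F U} {i : ℕ}
    (hP : finrank F (Γ ⊔ W : Submodule F U) = i + 4) (i' : ℕ) (hi' : i' ≤ 4) :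
    Nat.card (SC W Γ (i' + 4)) =
      if i ≤ i' then cC (Fintype.card F) i (i' - i) else 0 := by
  split_ifs with h
  · have h1 := card_SC hH.hU hP (i' - i) (by omega)
    rw [show i + 4 + (i' - i) = i' + 4 by omega] at h1
    exact h1
  · have : IsEmpty (SC W Γ (i' + 4)) := ⟨fun G => by
      have := fin_mono (sup_le G.2.1 G.2.2.1)
      rw [G.2.2.2, hP] at this
      omega⟩
    exact Nat.card_of_isEmpty

lemma hP_tr (hH : Hyp W c) {Γ : Submodule F U} (hΓ : Γ ⊓ W = ⊥) :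
    finrank F (Γ ⊔ W : Submodule F U) = finrank F Γ + 4 := by
  have := dimf Γ W
  rw [hΓ, finrank_bot, hH.hW] at this
  omega

/-- the count -/
theorem card_Ab (hH : Hyp W c) {Γ : Submodule F U} {J : Set K} (hc : IsCode W c Γ J)
    {t : ℕ × ℕ × ℕ} (ht : GoodT t) :
    Nat.card (Ab hH Γ J t) = NN (Fintype.card F) (Nat.card K) (tau W (ZZ Γ J)) t := by
  obtain ⟨k, i', j'⟩ := t
  rcases ht with ⟨hk, t1, t2, t3⟩ | ht | ⟨hk, t2⟩ | ht
  · simp only at hk t1 t2 t3
    subst hk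
    rw [Nat.card_congr (equiv0 hH Γ J t1 t2 t3), Nat.card_prod, card_SJ']
    rcases hc with h | h | h | h
    · rw [tau_A hH h, card_SA' hH h.1 i' (by omega)]
      simp [NN]
    · rw [tau_B hH h, card_SA' hH h.1 i' (by omega), if_neg (by rw [h.2.1]; omega)]
      simp [NN]
    · rw [tau_C hH h, card_SA_zero hH h.1]
      simp [NN]
    · rw [tau_D h, card_SA_zero hH (by rw [h.1]; exact le_top)]
      simp [NN]
  · rw [ht, Nat.card_congr (equiv1 hH Γ J)]
    rcases hc with h | h | h | h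
    · rw [tau_A hH h]
      have hJ : J.ncard = 0 ∨ J.ncard = 1 ∨ 2 ≤ J.ncard := by omega
      rcases hJ with hJ | hJ | hJ
      · rw [hJ]
        have hJ0 : J = ∅ := by
          rwa [Set.ncard_eq_zero (Set.toFinite _)] at hJ
        have h5 := card_SA' hH h.1 4 le_rfl
        rw [if_pos (by have := h.2.1; omega)] at h5
        simp only [NN]
        norm_num
        rw [← h5]
        refine Nat.card_congr (Equiv.subtypeEquivRight fun G => ?_)
        rw [hJ0]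
        simp
      · rw [hJ]
        obtain ⟨e, he⟩ := Set.ncard_eq_one.1 hJ
        have h5 := card_SB hH h.1 h.2.1 e
        simp only [NN]
        norm_num
        rw [← h5]
        refine Nat.card_congr (Equiv.subtypeEquivRight fun G => ?_)
        rw [he]
        simp [eq_comm]
      · have : IsEmpty {G : Submodule F U // Γ ≤ G ∧ G ⊓ W = ⊥ ∧ finrank F G = 4 ∧ J ⊆ {c G}} :=
          ⟨fun G => by
            have := Set.ncard_le_ncard G.2.2.2.2 (Set.toFinite _)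
            rw [Set.ncard_singleton] at this
            omega⟩
        rw [Nat.card_of_isEmpty]
        simp only [NN]
        norm_num
        rw [if_neg (by omega), if_neg (by omega)]
    · rw [tau_B hH h]
      simp only [NN]
      norm_num
      rw [Nat.card_eq_one_iff_unique]
      constructor
      · constructor
        intro a b
        apply Subtype.ext
        rw [← eq_of_fin a.2.1 (by rw [a.2.2.2.1, h.2.1]),
          ← eq_of_fin b.2.1 (by rw [b.2.2.2.1, h.2.1])]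
      · exact ⟨⟨Γ, le_rfl, h.1, h.2.1, h.2.2.subset⟩⟩
    · have : IsEmpty {G : Submodule F U // Γ ≤ G ∧ G ⊓ W = ⊥ ∧ finrank F G = 4 ∧ J ⊆ {c G}} :=
          ⟨fun G => by
            have h1 := G.2.2.1
            rw [inf_eq_right.2 (h.1.trans G.2.1)] at h1
            exact W_ne hH h1⟩
      rw [Nat.card_of_isEmpty, tau_C hH h]
      simp [NN]
    · have : IsEmpty {G : Submodule F U // Γ ≤ G ∧ G ⊓ W = ⊥ ∧ finrank F G = 4 ∧ J ⊆ {c G}} :=
          ⟨fun G => by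
            have h1 := G.2.2.1
            rw [inf_eq_right.2 ((show W ≤ Γ by rw [h.1]; exact le_top).trans G.2.1)] at h1
            exact W_ne hH h1⟩
      rw [Nat.card_of_isEmpty, tau_D h]
      simp [NN]
  · simp only at hk t2
    subst hk
    rw [Nat.card_congr (equiv2 hH Γ J t2), Nat.card_prod, card_SJ']
    rcases hc with h | h | h | h
    · rw [tau_A hH h, card_SC' hH (hP_tr hH h.1) i' (by omega)]
      simp [NN]
    · rw [tau_B hH h, card_SC' hH (hP_tr hH h.1) i' (by omega),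
        if_neg (by rw [h.2.1]; omega)]
      simp [NN]
    · have h4 := C_four hH h
      rw [tau_C hH h, card_SC' hH (i := finrank F Γ - 4)
        (by rw [sup_eq_left.2 h.1]; omega) i' (by omega)]
      simp [NN]
    · have h8 : finrank F (Γ ⊔ W : Submodule F U) = 4 + 4 := by
        rw [h.1, top_sup_eq, finrank_top, hH.hU]
      rw [tau_D h, card_SC' hH h8 i' (by omega), if_neg (by omega)]
      simp [NN]
  · rw [ht, card3]
    simp [NN]

end count

end Pool.Agent.L7h4.DC
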